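import Mathlib

/-!
# Descent along Frobenius

Over a perfect field `k` of characteristic `p`, `g^p ∈ (x^p : x ∈ X)` implies `g ∈ (X)` in a
polynomial ring over `k`.
-/

open MvPolynomial

namespace H50.DO

variable {σ k : Type} [Field k] (p : ℕ) [hp : Fact p.Prime] [CharP k p] [PerfectRing k p]

/-- the exponent divided by `p` -/
noncomputable def divExp (m : σ →₀ ℕ) : σ →₀ ℕ := m.mapRange (fun a => a / p) (by simp)

omit hp in
@[simp] lemma divExp_apply (m : σ →₀ ℕ) (i : σ) : divExp p m i = m i / p := rfl

open Classical in
/-- the `p`-th root of one term -/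
noncomputable def rootTerm (m : σ →₀ ℕ) : k →+ MvPolynomial σ k where
  toFun a := if ∀ i, p ∣ m i then monomial (divExp p m) ((frobeniusEquiv k p).symm a) else 0
  map_zero' := by simp
  map_add' a b := by
    split_ifs
    · rw [map_add, map_add]
    · simp

/-- the additive map `∑ a_m x^m ↦ ∑_{p ∣ m} a_m^{1/p} x^{m/p}` -/
noncomputable def rootMap : MvPolynomial σ k →+ MvPolynomial σ k :=
  (Finsupp.liftAddHom (rootTerm (k := k) p)).comp
    (AddMonoidAlgebra.coeffAddEquiv (R := k) (M := σ →₀ ℕ)).toAddMonoidHom

open Classical in
lemma rootMap_monomial (m : σ →₀ ℕ) (a : k) : rootMap p (monomial m a) =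
    if ∀ i, p ∣ m i then monomial (divExp p m) ((frobeniusEquiv k p).symm a) else 0 := by
  have h1 : (AddMonoidAlgebra.coeffAddEquiv (R := k) (M := σ →₀ ℕ)) (monomial m a) =
      Finsupp.single m a := by
    ext n
    classical
    change coeff n (monomial m a) = _
    rw [coeff_monomial, Finsupp.single_apply]
  change (Finsupp.liftAddHom (rootTerm (k := k) p))
    ((AddMonoidAlgebra.coeffAddEquiv (R := k) (M := σ →₀ ℕ)) (monomial m a)) = _
  rw [h1, Finsupp.liftAddHom_apply_single]
  rfl

lemma rootMap_mul_pow (h y : MvPolynomial σ k) : rootMap p (h * y ^ p) = rootMap p h * y := by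
  classical
  have hch : CharP (MvPolynomial σ k) p := inferInstance
  induction y using MvPolynomial.induction_on' with
  | monomial s b =>
    induction h using MvPolynomial.induction_on' with
    | monomial m a =>
      rw [monomial_pow, monomial_mul, rootMap_monomial, rootMap_monomial]
      have h2 : (∀ i, p ∣ (m + p • s) i) ↔ ∀ i, p ∣ m i := by
        apply forall_congr'
        intro i
        rw [Finsupp.add_apply, Finsupp.smul_apply, smul_eq_mul]
        exact (Nat.dvd_add_iff_left (Dvd.intro _ rfl)).symm
      by_cases h3 : ∀ i, p ∣ m i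
      · have e1 : divExp p (m + p • s) = divExp p m + s := by
          ext i
          rw [divExp_apply, Finsupp.add_apply, Finsupp.smul_apply, smul_eq_mul, Finsupp.add_apply,
            divExp_apply, Nat.add_mul_div_left _ _ hp.out.pos]
        rw [if_pos (h2.2 h3), if_pos h3, monomial_mul, e1]
        rw [map_mul, ← frobenius_def, frobeniusEquiv_symm_apply_frobenius]
      · rw [if_neg (fun h => h3 (h2.1 h)), if_neg h3, zero_mul]
    | add h h' ih ih' => rw [add_mul, map_add, ih, ih', map_add, add_mul]
  | add y y' ih ih' =>
    rw [add_pow_char, mul_add, map_add, ih, ih', mul_add]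

lemma rootMap_pow (y : MvPolynomial σ k) : rootMap p (y ^ p) = y := by
  have h := rootMap_mul_pow p 1 y
  rw [one_mul] at h
  rw [h]
  have h1 : rootMap p (1 : MvPolynomial σ k) = 1 := by
    classical
    have e1 : divExp p (0 : σ →₀ ℕ) = 0 := by
      ext i
      simp
    rw [← C_1, C_apply, rootMap_monomial, if_pos (by simp), map_one, e1]
  rw [h1, one_mul]

include p in
/-- descent of ideal membership along Frobenius -/
lemma frobenius_descent (g : MvPolynomial σ k) (X : Set (MvPolynomial σ k))
    (h : g ^ p ∈ Ideal.span {x | ∃ y ∈ X, x = y ^ p}) : g ∈ Ideal.span X := by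
  have key : ∀ z ∈ Ideal.span {x | ∃ y ∈ X, x = y ^ p}, rootMap p z ∈ Ideal.span X := by
    intro z hz
    induction hz using Submodule.span_induction with
    | mem x hx =>
      obtain ⟨y, hy, rfl⟩ := hx
      rw [rootMap_pow]
      exact Ideal.subset_span hy
    | zero => simp
    | add x y _ _ hx hy => rw [map_add]; exact add_mem hx hy
    | smul a x hx _ =>
      have h3 : ∀ x ∈ Ideal.span {x | ∃ y ∈ X, x = y ^ p}, ∀ a, rootMap p (a * x) ∈ Ideal.span X := by
        intro x hx
        induction hx using Submodule.span_induction with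
        | mem x hx =>
          intro a
          obtain ⟨y, hy, rfl⟩ := hx
          rw [rootMap_mul_pow]
          exact Ideal.mul_mem_left _ _ (Ideal.subset_span hy)
        | zero => intro a; simp
        | add x y _ _ hx hy => intro a; rw [mul_add, map_add]; exact add_mem (hx a) (hy a)
        | smul b x _ hx => intro a; rw [smul_eq_mul, ← mul_assoc]; exact hx (a * b)
      exact h3 x hx a
  have := key _ h
  rwa [rootMap_pow] at this

end H50.DO
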