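import Pool.Agent.H50.DO.Core

/-!
# Expressions for differential operators with polynomial coefficients
-/

open MvPolynomial

namespace H50.DO

/-- formal expressions in polynomials and partial derivatives -/
inductive WExp (ν : Type) (R : Type) [CommRing R] : Type
  | mul (q : MvPolynomial ν R) : WExp ν R
  | d (i : ν) : WExp ν R
  | add (a b : WExp ν R) : WExp ν R
  | comp (a b : WExp ν R) : WExp ν R

namespace WExp

variable {ν : Type} {R : Type} [CommRing R]

/-- the operator of an expression -/
noncomputable def ev : WExp ν R → Module.End R (MvPolynomial ν R)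
  | mul q => LinearMap.mulLeft R q
  | d i => (pderiv i).toLinearMap
  | add a b => ev a + ev b
  | comp a b => ev a * ev b

/-- multiplication of a sequence by a polynomial -/
noncomputable def mulSeq (q : MvPolynomial ν R) :
    Module.End R (ℕ → MvPolynomial ν R) where
  toFun h l := q * h l
  map_add' h h' := by funext l; simp [mul_add]
  map_smul' c h := by funext l; simp

/-- the operator conjugated by `e^{cf}` -/
noncomputable def evT (f : MvPolynomial ν R) : WExp ν R → Module.End R (ℕ → MvPolynomial ν R)
  | mul q => mulSeq q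
  | d i => T f i
  | add a b => evT f a + evT f b
  | comp a b => evT f a * evT f b

lemma Y_add (f : MvPolynomial ν R) (h h' : ℕ → MvPolynomial ν R) (l : ℕ) :
    Y f (h + h') l = Y f h l + Y f h' l := by
  unfold Y
  rw [← Finset.sum_add_distrib]
  apply Finset.sum_congr rfl
  intro i _
  simp only [Pi.add_apply]
  ring

lemma Y_evT (f : MvPolynomial ν R) (e : WExp ν R) (h : ℕ → MvPolynomial ν R) (l : ℕ) :
    Y f (evT f e h) l = ev e (Y f h l) := by
  induction e generalizing h l with
  | mul q =>
    simp only [evT, ev, LinearMap.mulLeft_apply, mulSeq, LinearMap.coe_mk, AddHom.coe_mk]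
    unfold Y
    rw [Finset.mul_sum]
    apply Finset.sum_congr rfl
    intro i _
    ring
  | d i => exact Y_T f i h l
  | add a b iha ihb => simp only [evT, ev, LinearMap.add_apply, Y_add, iha, ihb]
  | comp a b iha ihb => simp only [evT, ev, Module.End.mul_apply, iha, ihb]

lemma Y_evT_pow (f : MvPolynomial ν R) (e : WExp ν R) (h : ℕ → MvPolynomial ν R) (j l : ℕ) :
    Y f ((evT f e ^ j) h) l = (ev e ^ j) (Y f h l) := by
  induction j with
  | zero => simp
  | succ j ih => rw [pow_succ', Module.End.mul_apply, Y_evT, ih, pow_succ', Module.End.mul_apply]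

/-- the `S`-submodule spanned by all `T_w (1)` -/
noncomputable def L (f : MvPolynomial ν R) : Submodule (MvPolynomial ν R) (ℕ → MvPolynomial ν R) :=
  Submodule.span _ (Set.range fun w : List ν => TW f w (sgl 1))

lemma T_smul (f q : MvPolynomial ν R) (i : ν) (h : ℕ → MvPolynomial ν R) :
    T f i (q • h) = pderiv i q • h + q • T f i h := by
  funext l
  cases l with
  | zero => simp [mul_comm, add_comm]
  | succ l => simp; ring

lemma T_mem_L (f : MvPolynomial ν R) (i : ν) {h : ℕ → MvPolynomial ν R} (hh : h ∈ L f) :
    T f i h ∈ L f := by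
  unfold L at hh
  induction hh using Submodule.span_induction with
  | mem x hx =>
    obtain ⟨w, rfl⟩ := hx
    apply Submodule.subset_span
    exact ⟨i :: w, by simp [TW]⟩
  | zero => rw [map_zero]; exact zero_mem _
  | add x y _ _ hx hy => rw [map_add]; exact add_mem hx hy
  | smul a x hx hx' =>
    rw [T_smul]
    exact add_mem (Submodule.smul_mem _ _ hx) (Submodule.smul_mem _ _ hx')

lemma evT_mem_L (f : MvPolynomial ν R) (e : WExp ν R) {h : ℕ → MvPolynomial ν R} (hh : h ∈ L f) :
    evT f e h ∈ L f := by
  induction e generalizing h with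
  | mul q => exact Submodule.smul_mem _ q hh
  | d i => exact T_mem_L f i hh
  | add a b iha ihb => exact add_mem (iha hh) (ihb hh)
  | comp a b iha ihb => exact iha (ihb hh)

lemma evT_pow_mem_L (f : MvPolynomial ν R) (e : WExp ν R) (j : ℕ) :
    (evT f e ^ j) (sgl 1) ∈ L f := by
  induction j with
  | zero =>
    apply Submodule.subset_span
    exact ⟨[], by simp [TW]⟩
  | succ j ih => rw [pow_succ', Module.End.mul_apply]; exact evT_mem_L f e ih

lemma InM_of_mem_L [Fintype ν] [IsDomain R] (p : ℕ) [Fact p.Prime] [CharP R p]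
    (f : MvPolynomial ν R) {h : ℕ → MvPolynomial ν R} (hh : h ∈ L f) :
    InM f (Fintype.card ν * (p - 1)) h := by
  unfold L at hh
  induction hh using Submodule.span_induction with
  | mem x hx =>
    obtain ⟨w, rfl⟩ := hx
    exact TW_one_mem p f w
  | zero => intro l; exact zero_mem _
  | add x y _ _ hx hy => intro l; exact add_mem (hx l) (hy l)
  | smul a x _ hx => intro l; exact Ideal.mul_mem_left _ a (hx l)

/-- In characteristic `p` the `l`-th coefficient of `e^{-cf} Q^j e^{cf}` lies in
`J_f ^ (l - ν (p-1))`. -/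
lemma evT_pow_mem [Fintype ν] [IsDomain R] (p : ℕ) [Fact p.Prime] [CharP R p]
    (f : MvPolynomial ν R) (e : WExp ν R) (j l : ℕ) :
    (evT f e ^ j) (sgl 1) l ∈ jac f ^ (l - Fintype.card ν * (p - 1)) :=
  InM_of_mem_L p f (evT_pow_mem_L f e j) l

/-! ### base change -/

variable {R' : Type} [CommRing R'] (φ : R →+* R')

/-- base change of an expression -/
noncomputable def bc : WExp ν R → WExp ν R'
  | mul q => mul (map φ q)
  | d i => d i
  | add a b => add (bc a) (bc b)
  | comp a b => comp (bc a) (bc b)

/-- base change of a sequence -/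
noncomputable def seqMap (h : ℕ → MvPolynomial ν R) : ℕ → MvPolynomial ν R' := fun l => map φ (h l)

lemma pderiv_map' (i : ν) (h : MvPolynomial ν R) :
    pderiv i (map φ h) = map φ (pderiv i h) := by
  rw [MvPolynomial.pderiv_map]

lemma seqMap_T (f : MvPolynomial ν R) (i : ν) (h : ℕ → MvPolynomial ν R) :
    seqMap φ (T f i h) = T (map φ f) i (seqMap φ h) := by
  funext l
  cases l with
  | zero => simp [seqMap, pderiv_map']
  | succ l => simp [seqMap, pderiv_map']

lemma seqMap_evT (f : MvPolynomial ν R) (e : WExp ν R) (h : ℕ → MvPolynomial ν R) :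
    seqMap φ (evT f e h) = evT (map φ f) (bc φ e) (seqMap φ h) := by
  induction e generalizing h with
  | mul q => funext l; simp [seqMap, evT, bc, mulSeq]
  | d i => exact seqMap_T φ f i h
  | add a b iha ihb =>
    simp only [evT, bc, LinearMap.add_apply, ← iha, ← ihb]
    funext l
    simp [seqMap]
  | comp a b iha ihb => simp only [evT, bc, Module.End.mul_apply, iha, ihb]

lemma seqMap_evT_pow (f : MvPolynomial ν R) (e : WExp ν R) (h : ℕ → MvPolynomial ν R) (j : ℕ) :
    seqMap φ ((evT f e ^ j) h) = (evT (map φ f) (bc φ e) ^ j) (seqMap φ h) := by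
  induction j with
  | zero => simp
  | succ j ih => rw [pow_succ', Module.End.mul_apply, seqMap_evT, ih, pow_succ',
      Module.End.mul_apply]

lemma seqMap_sgl (a : MvPolynomial ν R) : seqMap φ (sgl a) = sgl (map φ a) := by
  funext l
  simp only [seqMap, sgl]
  split_ifs <;> simp

/-! ### descent of the coefficients -/

/-- the coefficients occurring in an expression -/
noncomputable def cf [DecidableEq R] : WExp ν R → Finset R
  | mul q => q.coeffs
  | d _ => ∅
  | add a b => cf a ∪ cf b
  | comp a b => cf a ∪ cf b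

lemma exists_map_eq (q : MvPolynomial ν R')
    (hq : (q.coeffs : Set R') ⊆ Set.range φ) : ∃ q' : MvPolynomial ν R, map φ q' = q := by
  classical
  have h : ∀ m : ν →₀ ℕ, ∃ a : R, φ a = q.coeff m := by
    intro m
    by_cases hm : q.coeff m = 0
    · exact ⟨0, by simp [hm]⟩
    · exact hq (coeff_mem_coeffs m hm)
  choose a ha using h
  refine ⟨∑ m ∈ q.support, monomial m (a m), ?_⟩
  rw [map_sum]
  conv_rhs => rw [q.as_sum]
  apply Finset.sum_congr rfl
  intro m _
  rw [map_monomial, ha]

lemma exists_bc_eq [DecidableEq R'] (e : WExp ν R')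
    (he : (cf e : Set R') ⊆ Set.range φ) : ∃ e' : WExp ν R, bc φ e' = e := by
  induction e with
  | mul q =>
    obtain ⟨q', hq'⟩ := exists_map_eq φ q he
    exact ⟨mul q', by simp [bc, hq']⟩
  | d i => exact ⟨d i, rfl⟩
  | add a b iha ihb =>
    simp only [cf, Finset.coe_union, Set.union_subset_iff] at he
    obtain ⟨a', ha'⟩ := iha he.1
    obtain ⟨b', hb'⟩ := ihb he.2
    exact ⟨add a' b', by simp [bc, ha', hb']⟩
  | comp a b iha ihb =>
    simp only [cf, Finset.coe_union, Set.union_subset_iff] at he
    obtain ⟨a', ha'⟩ := iha he.1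
    obtain ⟨b', hb'⟩ := ihb he.2
    exact ⟨comp a' b', by simp [bc, ha', hb']⟩

end WExp

end H50.DO
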