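import Pool.Agent.H50.DO.Spread
import Pool.Agent.H50.DO.Expr

/-!
# Non-membership in an ideal spreads out

If `g ∉ (X)` in `ℂ[x_σ]`, then over a suitable finitely generated ring `R ⊂ ℂ` the same holds after
reduction at a suitable homomorphism from `R` to a perfect field of positive characteristic.
-/

open MvPolynomial

namespace H50.DO

variable {σ : Type}

section General

variable {R R' : Type} [CommRing R] [CommRing R']

/-- translation -/
noncomputable def tr (a : σ → R) : MvPolynomial σ R →ₐ[R] MvPolynomial σ R :=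
  aeval (fun i => X i + C (a i))

lemma tr_map (φ : R →+* R') (a : σ → R) (h : MvPolynomial σ R) :
    map φ (tr a h) = tr (fun i => φ (a i)) (map φ h) := by
  have h2 : (map φ).comp ((tr a : MvPolynomial σ R →ₐ[R] MvPolynomial σ R) :
      MvPolynomial σ R →+* MvPolynomial σ R) =
      ((tr (fun i => φ (a i)) : MvPolynomial σ R' →ₐ[R'] MvPolynomial σ R') :
        MvPolynomial σ R' →+* MvPolynomial σ R').comp (map φ) := by
    apply MvPolynomial.ringHom_ext
    · intro r
      simp [tr]
    · intro i
      simp [tr]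
  exact RingHom.congr_fun h2 h

lemma tr_neg_tr (a : σ → R) (h : MvPolynomial σ R) : tr (fun i => - a i) (tr a h) = h := by
  have h2 : (tr (fun i => - a i)).comp (tr a) = AlgHom.id R (MvPolynomial σ R) := by
    apply MvPolynomial.algHom_ext
    intro i
    simp [tr]
  exact AlgHom.congr_fun h2 h

/-- a linear functional given by finitely many coefficients -/
noncomputable def pair (T : Finset (σ →₀ ℕ)) (c : (σ →₀ ℕ) → R) (h : MvPolynomial σ R) : R :=
  ∑ m ∈ T, c m * coeff m h

lemma pair_add (T : Finset (σ →₀ ℕ)) (c : (σ →₀ ℕ) → R) (h h' : MvPolynomial σ R) :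
    pair T c (h + h') = pair T c h + pair T c h' := by
  simp [pair, mul_add, Finset.sum_add_distrib]

lemma pair_C_mul (T : Finset (σ →₀ ℕ)) (c : (σ →₀ ℕ) → R) (b : R) (h : MvPolynomial σ R) :
    pair T c (C b * h) = b * pair T c h := by
  simp only [pair, coeff_C_mul, Finset.mul_sum]
  apply Finset.sum_congr rfl
  intro m _
  ring

lemma pair_map (φ : R →+* R') (T : Finset (σ →₀ ℕ)) (c : (σ →₀ ℕ) → R) (h : MvPolynomial σ R) :
    pair T (fun m => φ (c m)) (map φ h) = φ (pair T c h) := by
  simp [pair, coeff_map]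

lemma notMem_of_cert (T : Finset (σ →₀ ℕ)) (c : (σ →₀ ℕ) → R) (a : σ → R)
    (X : Set (MvPolynomial σ R)) (g : MvPolynomial σ R)
    (h1 : ∀ x ∈ X, ∀ β, pair T c (monomial β 1 * tr a x) = 0)
    (h2 : pair T c (tr a g) ≠ 0) : g ∉ Ideal.span X := by
  intro hg
  have key : ∀ z ∈ Ideal.span X, ∀ h, pair T c (h * tr a z) = 0 := by
    intro z hz
    induction hz using Submodule.span_induction with
    | mem x hx =>
      intro h
      induction h using MvPolynomial.induction_on' with
      | monomial β b =>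
        rw [show (monomial β b : MvPolynomial σ R) = C b * monomial β 1 by simp [C_mul_monomial],
          mul_assoc, pair_C_mul, h1 x hx, mul_zero]
      | add h h' ih ih' => rw [add_mul, pair_add, ih, ih', add_zero]
    | zero => intro h; simp [pair]
    | add x y _ _ hx hy => intro h; rw [map_add, mul_add, pair_add, hx, hy, add_zero]
    | smul r x _ hx =>
      intro h
      rw [smul_eq_mul, map_mul, ← mul_assoc]
      exact hx _
  have := key g hg 1
  rw [one_mul] at this
  exact h2 this

end General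

lemma exists_maximal_pow {S : Type} [CommRing S] [IsNoetherianRing S] (I : Ideal S) (g : S)
    (hg : g ∉ I) : ∃ m : Ideal S, m.IsMaximal ∧ ∃ N : ℕ, g ∉ I ⊔ m ^ N := by
  let J : Ideal S := Submodule.comap (LinearMap.toSpanSingleton S S g) I
  have hJ : ∀ r, r ∈ J ↔ r * g ∈ I := fun r => Iff.rfl
  have hJ1 : J ≠ ⊤ := by
    rw [Ne, Ideal.eq_top_iff_one, hJ, one_mul]
    exact hg
  obtain ⟨m, hm, hJm⟩ := Ideal.exists_le_maximal J hJ1
  refine ⟨m, hm, ?_⟩
  by_contra hcon
  push Not at hcon
  have h1 : (Ideal.Quotient.mk I g : S ⧸ I) ∈ (⨅ i : ℕ, m ^ i • ⊤ : Submodule S (S ⧸ I)) := by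
    rw [Submodule.mem_iInf]
    intro N
    obtain ⟨x, hx, y, hy, hxy⟩ := Submodule.mem_sup.1 (hcon N)
    have h2 : (Ideal.Quotient.mk I g : S ⧸ I) = y • (1 : S ⧸ I) := by
      rw [← hxy, map_add, Ideal.Quotient.eq_zero_iff_mem.2 hx, zero_add, Algebra.smul_def, mul_one]
      rfl
    rw [h2]
    exact Submodule.smul_mem_smul hy Submodule.mem_top
  rw [Ideal.mem_iInf_smul_pow_eq_bot_iff] at h1
  obtain ⟨r, hr⟩ := h1
  have h2 : (1 - (r : S)) ∈ J := by
    rw [hJ, ← Ideal.Quotient.eq_zero_iff_mem, map_mul, map_sub, map_one, sub_mul, one_mul,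
      sub_eq_zero]
    exact hr.symm
  apply hm.ne_top
  rw [Ideal.eq_top_iff_one]
  have h3 := add_mem (hJm h2) r.2
  rwa [sub_add_cancel] at h3

set_option maxHeartbeats 400000 in
lemma exists_certificate [Finite σ] (I : Ideal (MvPolynomial σ ℂ)) (g : MvPolynomial σ ℂ)
    (hg : g ∉ I) : ∃ (a : σ → ℂ) (T : Finset (σ →₀ ℕ)) (c : (σ →₀ ℕ) → ℂ),
      (∀ x ∈ I, pair T c (tr a x) = 0) ∧ pair T c (tr a g) ≠ 0 ∧ ∀ m ∉ T, c m = 0 := by
  classical
  obtain ⟨m, hm, N, hN⟩ := exists_maximal_pow I g hg
  obtain ⟨a, ha⟩ := MvPolynomial.isMaximal_iff_eq_vanishingIdeal_singleton.1 hm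
  have hXa : ∀ i, (X i - C (a i) : MvPolynomial σ ℂ) ∈ m := by
    intro i
    rw [ha, mem_vanishingIdeal_singleton_iff]
    simp
  have hW : g ∉ (I ⊔ m ^ N).restrictScalars ℂ := hN
  obtain ⟨l, hlg, hlW⟩ := Submodule.exists_le_ker_of_notMem hW
  have hlI : ∀ x ∈ I, l x = 0 := fun x hx => hlW (Submodule.mem_sup_left hx)
  have hlN : ∀ x ∈ m ^ N, l x = 0 := fun x hx => hlW (Submodule.mem_sup_right hx)
  let T : Finset (σ →₀ ℕ) := (Finsupp.finite_of_degree_lt (σ := σ) N).toFinset
  let c : (σ →₀ ℕ) → ℂ := fun b => l (tr (fun i => - a i) (monomial b 1))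
  have hc : ∀ b ∉ T, c b = 0 := by
    intro b hb
    have hb' : N ≤ b.degree := by
      simp only [T, Set.Finite.mem_toFinset, Set.mem_ofPred_eq, not_lt] at hb
      exact hb
    apply hlN
    have h1 : tr (fun i => - a i) (monomial b (1 : ℂ)) =
        b.prod fun i n => (X i - C (a i)) ^ n := by
      rw [monomial_eq, C_1, one_mul, Finsupp.prod, map_prod, Finsupp.prod]
      apply Finset.prod_congr rfl
      intro i _
      rw [map_pow]
      simp [tr, sub_eq_add_neg]
    rw [h1]
    have h2 : (b.prod fun i n => (X i - C (a i) : MvPolynomial σ ℂ) ^ n) ∈ m ^ b.degree := by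
      rw [Finsupp.prod, Finsupp.degree_apply, ← Finset.prod_pow_eq_pow_sum]
      apply Ideal.prod_mem_prod
      intro i _
      exact Ideal.pow_mem_pow (hXa i) _
    exact Ideal.pow_le_pow_right hb' h2
  have hpair : ∀ h, pair T c (tr a h) = l h := by
    intro h
    have h0 : l h = l (tr (fun i => - a i) (tr a h)) := by rw [tr_neg_tr]
    have h1 : ∀ b : σ →₀ ℕ, l (tr (fun i => - a i) (monomial b (coeff b (tr a h)))) =
        c b * coeff b (tr a h) := by
      intro b
      have h2 : (monomial b (coeff b (tr a h)) : MvPolynomial σ ℂ) =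
          coeff b (tr a h) • monomial b 1 := by
        rw [smul_monomial, smul_eq_mul, mul_one]
      rw [h2, map_smul, map_smul, smul_eq_mul, mul_comm]
    rw [h0, (tr a h).as_sum, map_sum, map_sum]
    rw [← (tr a h).as_sum, Finset.sum_congr rfl fun b _ => h1 b]
    unfold pair
    rw [Finset.sum_subset (Finset.subset_union_left (s₁ := T) (s₂ := (tr a h).support))
      (fun b _ hb => by rw [hc b hb, zero_mul]),
      Finset.sum_subset (Finset.subset_union_right (s₁ := T) (s₂ := (tr a h).support))
      (fun b _ hb => by rw [notMem_support_iff.1 hb, mul_zero])]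
  refine ⟨a, T, c, ?_, ?_, hc⟩
  · intro x hx
    rw [hpair]
    exact hlI x hx
  · rw [hpair]
    exact hlg

set_option maxHeartbeats 400000 in
/-- Non-membership in an ideal survives a suitable reduction to positive characteristic. -/
theorem exists_reduction_notMem [Finite σ] (X : Set (MvPolynomial σ ℂ)) (g : MvPolynomial σ ℂ)
    (hg : g ∉ Ideal.span X) (F0 : Finset ℂ) :
    ∃ R : Subalgebra ℤ ℂ, (∀ z ∈ F0, z ∈ R) ∧
      ∀ (XR : Set (MvPolynomial σ R)) (gR : MvPolynomial σ R),
        (∀ x ∈ XR, map (algebraMap R ℂ) x ∈ X) → map (algebraMap R ℂ) gR = g →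
        ∃ (p : ℕ) (_ : p.Prime) (k : Type) (_ : Field k) (_ : CharP k p) (_ : Fact p.Prime)
          (_ : PerfectRing k p) (φ : R →+* k),
          map φ gR ∉ Ideal.span (map φ '' XR) := by
  classical
  obtain ⟨a, T, c, h1, h2, h3⟩ := exists_certificate (Ideal.span X) g hg
  have hfin : Fintype σ := Fintype.ofFinite σ
  let F : Finset ℂ := (F0 ∪ Finset.univ.image a) ∪ T.image c
  let R : Subalgebra ℤ ℂ := Algebra.adjoin ℤ (F : Set ℂ)
  have hRF : ∀ x ∈ F, x ∈ R := fun x hx => Algebra.subset_adjoin hx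
  have hft : Algebra.FiniteType ℤ R := by
    rw [← Subalgebra.fg_iff_finiteType]
    exact Subalgebra.fg_adjoin_finset F
  refine ⟨R, fun z hz => hRF z (by simp [F, hz]), ?_⟩
  intro XR gR hXR hgR
  have hinj : Function.Injective (algebraMap R ℂ) := Subtype.val_injective
  have hcR : ∀ m, c m ∈ R := by
    intro m
    by_cases hm : m ∈ T
    · apply hRF
      simp only [F, Finset.mem_union, Finset.mem_image]
      right
      exact ⟨m, hm, rfl⟩
    · rw [h3 m hm]
      exact zero_mem _
  have haR : ∀ i, a i ∈ R := by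
    intro i
    apply hRF
    simp only [F, Finset.mem_union, Finset.mem_image]
    left; right
    exact ⟨i, Finset.mem_univ _, rfl⟩
  let cR : (σ →₀ ℕ) → R := fun m => ⟨c m, hcR m⟩
  let aR : σ → R := fun i => ⟨a i, haR i⟩
  have hz : pair T cR (tr aR gR) ≠ 0 := by
    intro h0
    apply h2
    have h4 := congrArg (algebraMap R ℂ) h0
    rw [← pair_map, tr_map, hgR, map_zero] at h4
    exact h4
  obtain ⟨p, hp, k, hk, hkp, φ, hφ⟩ := exists_reduction R _ hz
  have hfact : Fact p.Prime := ⟨hp⟩
  have hkp' : CharP (AlgebraicClosure k) p := inferInstance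
  have hexp : ExpChar (AlgebraicClosure k) p := inferInstance
  refine ⟨p, hp, AlgebraicClosure k, inferInstance, hkp', hfact, inferInstance,
    (algebraMap k (AlgebraicClosure k)).comp φ, ?_⟩
  let φ' : R →+* AlgebraicClosure k := (algebraMap k (AlgebraicClosure k)).comp φ
  apply notMem_of_cert T (fun m => φ' (cR m)) (fun i => φ' (aR i))
  · rintro _ ⟨x, hx, rfl⟩ β
    have h5 : pair T cR (monomial β 1 * tr aR x) = 0 := by
      apply hinj
      rw [← pair_map, map_mul, tr_map, map_monomial, map_one, map_zero]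
      have h6 : (monomial β (1 : ℂ)) * tr a (map (algebraMap R ℂ) x) =
          tr a (tr (fun i => - a i) (monomial β 1) * map (algebraMap R ℂ) x) := by
        rw [map_mul]
        congr 1
        have := tr_neg_tr (fun i => - a i) (monomial β (1 : ℂ))
        simp only [neg_neg] at this
        exact this.symm
      have h7 := h1 (tr (fun i => - a i) (monomial β 1) * map (algebraMap R ℂ) x)
        (Ideal.mul_mem_left _ _ (Ideal.subset_span (hXR x hx)))
      rw [← h6] at h7
      exact h7
    have h8 := congrArg φ' h5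
    rw [← pair_map, map_mul, tr_map, map_monomial, map_one, map_zero] at h8
    exact h8
  · intro h0
    have h9 : φ' (pair T cR (tr aR gR)) = 0 := by
      rw [← pair_map, tr_map]
      exact h0
    have h10 : φ (pair T cR (tr aR gR)) = 0 := by
      apply (algebraMap k (AlgebraicClosure k)).injective
      rw [map_zero]
      exact h9
    exact hφ h10

end H50.DO
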