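import Mathlib

/-!
# The characteristic-`p` lemma

`S = MvPolynomial ν k`.  Sequences `h : ℕ → S` stand for formal series `∑ c^l h_l`.  For `f : S`
the operator `T f i` is `∂_i + c ∂_i f`.  In characteristic `p` one has `(T f i)^p = c^p (∂_i f)^p`.
-/

open MvPolynomial

namespace H50.DO

section Any

variable {ν : Type*} {R : Type*} [CommRing R]

/-- `∂_i + c ∂_i f` on sequences. -/
noncomputable def T (f : MvPolynomial ν R) (i : ν) :
    (ℕ → MvPolynomial ν R) →ₗ[R] (ℕ → MvPolynomial ν R) where
  toFun h l := match l with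
    | 0 => pderiv i (h 0)
    | l + 1 => pderiv i (h (l + 1)) + pderiv i f * h l
  map_add' h h' := by
    funext l
    cases l with
    | zero => simp
    | succ l => simp; ring
  map_smul' c h := by
    funext l
    cases l with
    | zero => simp
    | succ l => simp

@[simp] lemma T_zero (f : MvPolynomial ν R) (i : ν) (h : ℕ → MvPolynomial ν R) :
    T f i h 0 = pderiv i (h 0) := rfl

@[simp] lemma T_succ (f : MvPolynomial ν R) (i : ν) (h : ℕ → MvPolynomial ν R) (l : ℕ) :
    T f i h (l + 1) = pderiv i (h (l + 1)) + pderiv i f * h l := rfl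

lemma pderiv_comm (i j : ν) (h : MvPolynomial ν R) :
    pderiv i (pderiv j h) = pderiv j (pderiv i h) := by
  classical
  have h0 : ⁅(pderiv i : Derivation R (MvPolynomial ν R) (MvPolynomial ν R)),
      (pderiv j : Derivation R (MvPolynomial ν R) (MvPolynomial ν R))⁆ = 0 := by
    apply MvPolynomial.derivation_ext
    intro k
    rw [Derivation.commutator_apply]
    simp only [pderiv_X, Derivation.coe_zero, Pi.zero_apply]
    simp only [Pi.single_apply]
    split_ifs <;> simp
  have h1 := congrArg (fun D : Derivation R (MvPolynomial ν R) (MvPolynomial ν R) => D h) h0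
  simp only [Derivation.commutator_apply, Derivation.coe_zero, Pi.zero_apply] at h1
  exact sub_eq_zero.1 h1

lemma T_comm (f : MvPolynomial ν R) (i j : ν) : Commute (T f i) (T f j) := by
  apply LinearMap.ext
  intro h
  funext l
  simp only [Module.End.mul_apply]
  rcases l with _ | _ | l
  · simp [pderiv_comm i j]
  · simp only [T_succ, T_zero, map_add, Derivation.leibniz, smul_eq_mul, zero_add]
    rw [pderiv_comm i j (h 1), pderiv_comm i j f]
    ring
  · simp only [T_succ, map_add, Derivation.leibniz, smul_eq_mul]
    rw [pderiv_comm i j (h (l + 1 + 1)), pderiv_comm i j f]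
    ring

/-- The values on `f^l`: `Y f h l = ∑_i l(l-1)…(l-i+1) f^(l-i) h_i`. -/
noncomputable def Y (f : MvPolynomial ν R) (h : ℕ → MvPolynomial ν R) (l : ℕ) :
    MvPolynomial ν R :=
  ∑ i ∈ Finset.range (l + 1), (l.descFactorial i : MvPolynomial ν R) * (f ^ (l - i) * h i)

lemma Y_T (f : MvPolynomial ν R) (i : ν) (h : ℕ → MvPolynomial ν R) (l : ℕ) :
    Y f (T f i h) l = pderiv i (Y f h l) := by
  unfold Y
  rw [map_sum, Finset.sum_range_succ', Finset.sum_range_succ' (n := l)]
  have e1 : ∀ j ∈ Finset.range l, (l.descFactorial (j + 1) : MvPolynomial ν R) *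
      (f ^ (l - (j + 1)) * T f i h (j + 1)) =
      (l.descFactorial (j + 1) : MvPolynomial ν R) *
        (f ^ (l - (j + 1)) * pderiv i (h (j + 1))) +
      (l.descFactorial (j + 1) : MvPolynomial ν R) * (f ^ (l - (j + 1)) *
        (pderiv i f * h j)) := by
    intro j _
    rw [T_succ]
    ring
  have key : ∀ j : ℕ, pderiv i ((l.descFactorial j : MvPolynomial ν R) * (f ^ (l - j) * h j)) =
      (l.descFactorial j : MvPolynomial ν R) * (f ^ (l - j) * pderiv i (h j)) +
      (l.descFactorial (j + 1) : MvPolynomial ν R) * (f ^ (l - (j + 1)) *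
        (pderiv i f * h j)) := by
    intro j
    have hn : pderiv i ((l.descFactorial j : MvPolynomial ν R)) = 0 := by
      simp
    rw [Derivation.leibniz, Derivation.leibniz, hn, Derivation.leibniz_pow,
      Nat.descFactorial_succ]
    simp only [smul_eq_mul, nsmul_eq_mul, mul_zero, add_zero, Nat.cast_mul]
    rw [show l - (j + 1) = l - j - 1 by omega]
    ring
  rw [Finset.sum_congr rfl e1, Finset.sum_add_distrib]
  rw [Finset.sum_congr rfl (fun j _ => key (j + 1)), key 0, Finset.sum_add_distrib]
  have e2 : ∑ j ∈ Finset.range l, (l.descFactorial (j + 1) : MvPolynomial ν R) *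
      (f ^ (l - (j + 1)) * (pderiv i f * h j)) =
      ∑ j ∈ Finset.range l, (l.descFactorial (j + 1 + 1) : MvPolynomial ν R) *
      (f ^ (l - (j + 1 + 1)) * (pderiv i f * h (j + 1))) +
      (l.descFactorial (0 + 1) : MvPolynomial ν R) *
      (f ^ (l - (0 + 1)) * (pderiv i f * h 0)) := by
    rw [← Finset.sum_range_succ' (fun j => (l.descFactorial (j + 1) : MvPolynomial ν R) *
      (f ^ (l - (j + 1)) * (pderiv i f * h j))) l, Finset.sum_range_succ]
    simp
  rw [e2]
  simp only [T_zero]
  ring

/-- the sequence `a, 0, 0, …` -/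
noncomputable def sgl (a : MvPolynomial ν R) : ℕ → MvPolynomial ν R := fun l => if l = 0 then a else 0

lemma Y_sgl (f a : MvPolynomial ν R) (l : ℕ) : Y f (sgl a) l = f ^ l * a := by
  unfold Y sgl
  rw [Finset.sum_range_succ']
  simp

/-- shift `h ↦ c h` -/
noncomputable def shift (h : ℕ → MvPolynomial ν R) : ℕ → MvPolynomial ν R
  | 0 => 0
  | l + 1 => h l

lemma T_shift (f : MvPolynomial ν R) (i : ν) (h : ℕ → MvPolynomial ν R) :
    T f i (shift h) = shift (T f i h) := by
  funext l
  rcases l with _ | _ | l
  · simp [shift]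
  · simp [shift]
  · simp [shift]

lemma T_pow_shift (f : MvPolynomial ν R) (i : ν) (m : ℕ) (h : ℕ → MvPolynomial ν R) :
    (T f i ^ m) (shift h) = shift ((T f i ^ m) h) := by
  induction m with
  | zero => simp
  | succ m ih => rw [pow_succ', Module.End.mul_apply, Module.End.mul_apply, ih, T_shift]

lemma T_pow_sgl_gt (f a : MvPolynomial ν R) (i : ν) (m l : ℕ) (hl : m < l) :
    (T f i ^ m) (sgl a) l = 0 := by
  induction m generalizing l with
  | zero => simp [sgl]; omega
  | succ m ih =>
    rw [pow_succ', Module.End.mul_apply]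
    obtain ⟨l, rfl⟩ : ∃ l', l = l' + 1 := ⟨l - 1, by omega⟩
    rw [T_succ, ih _ (by omega), ih _ (by omega)]
    simp

lemma T_pow_sgl_eq (f a : MvPolynomial ν R) (i : ν) (m : ℕ) :
    (T f i ^ m) (sgl a) m = (pderiv i f) ^ m * a := by
  induction m with
  | zero => simp [sgl]
  | succ m ih =>
    rw [pow_succ', Module.End.mul_apply, T_succ, ih, T_pow_sgl_gt _ _ _ _ _ (Nat.lt_succ_self m)]
    rw [map_zero]
    ring

lemma Y_T_pow (f : MvPolynomial ν R) (i : ν) (h : ℕ → MvPolynomial ν R) (m l : ℕ) :
    Y f ((T f i ^ m) h) l = (pderiv i)^[m] (Y f h l) := by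
  induction m with
  | zero => simp
  | succ m ih =>
    rw [pow_succ', Module.End.mul_apply, Y_T, ih, Function.iterate_succ_apply']

lemma iterate_pderiv_monomial (i : ν) (m : ℕ) (s : ν →₀ ℕ) (a : R) :
    (pderiv i)^[m] (monomial s a) =
      monomial (s - Finsupp.single i m) (a * ((s i).descFactorial m : R)) := by
  induction m with
  | zero => simp
  | succ m ih =>
    rw [Function.iterate_succ_apply', ih, pderiv_monomial]
    congr 1
    · rw [tsub_tsub, ← Finsupp.single_add]
    · rw [Nat.descFactorial_succ]
      simp only [Finsupp.coe_tsub, Pi.sub_apply, Finsupp.single_eq_same, Nat.cast_mul]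
      ring

lemma iterate_pderiv_add (i : ν) (m : ℕ) (a b : MvPolynomial ν R) :
    (pderiv i)^[m] (a + b) = (pderiv i)^[m] a + (pderiv i)^[m] b := by
  induction m with
  | zero => simp
  | succ m ih => rw [Function.iterate_succ_apply', ih, map_add, Function.iterate_succ_apply',
      Function.iterate_succ_apply']

lemma iterate_pderiv_char (p : ℕ) [hp : Fact p.Prime] [CharP R p] (i : ν)
    (h : MvPolynomial ν R) : (pderiv i)^[p] h = 0 := by
  induction h using MvPolynomial.induction_on' with
  | monomial s a =>
    rw [iterate_pderiv_monomial]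
    have : ((s i).descFactorial p : R) = 0 := by
      rw [CharP.cast_eq_zero_iff R p]
      exact (Nat.dvd_factorial hp.out.pos le_rfl).trans (Nat.factorial_dvd_descFactorial _ _)
    rw [this]
    simp
  | add a b ha hb => rw [iterate_pderiv_add, ha, hb, add_zero]

end Any

section CharP

variable {ν : Type*} {R : Type*} [CommRing R] [IsDomain R] (p : ℕ) [hp : Fact p.Prime] [CharP R p]

include p in
lemma T_pow_char_sgl (f a : MvPolynomial ν R) (i : ν) (l : ℕ) :
    (T f i ^ p) (sgl a) l = if l = p then (pderiv i f) ^ p * a else 0 := by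
  induction l using Nat.strong_induction_on with
  | _ l ih =>
    rcases lt_trichotomy l p with hl | hl | hl
    · rw [if_neg hl.ne]
      have h1 := Y_T_pow f i (sgl a) p l
      rw [iterate_pderiv_char p] at h1
      unfold Y at h1
      rw [Finset.sum_range_succ, Finset.sum_eq_zero, zero_add] at h1
      · rw [Nat.descFactorial_self, Nat.sub_self, pow_zero, one_mul] at h1
        rcases mul_eq_zero.1 h1 with h2 | h2
        · exfalso
          have : CharP (MvPolynomial ν R) p := inferInstance
          rw [CharP.cast_eq_zero_iff (MvPolynomial ν R) p, hp.out.dvd_factorial] at h2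
          omega
        · exact h2
      · intro j hj
        rw [Finset.mem_range] at hj
        rw [ih j hj, if_neg (by omega)]
        simp
    · subst hl
      rw [if_pos rfl, T_pow_sgl_eq]
    · rw [if_neg hl.ne', T_pow_sgl_gt _ _ _ _ _ hl]

lemma eq_sgl_add_shift {ν R : Type*} [CommRing R] (h : ℕ → MvPolynomial ν R) :
    h = sgl (h 0) + shift (fun l => h (l + 1)) := by
  funext l
  cases l <;> simp [sgl, shift]

include p in
/-- `T^p = c^p (∂_i f)^p`. -/
lemma T_pow_char (f : MvPolynomial ν R) (i : ν) (h : ℕ → MvPolynomial ν R) (l : ℕ) :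
    (T f i ^ p) h l = if l < p then 0 else (pderiv i f) ^ p * h (l - p) := by
  induction l generalizing h with
  | zero =>
    rw [if_pos hp.out.pos]
    conv_lhs => rw [eq_sgl_add_shift h]
    rw [map_add, Pi.add_apply, T_pow_shift, T_pow_char_sgl, if_neg hp.out.pos.ne]
    simp [shift]
  | succ l ih =>
    conv_lhs => rw [eq_sgl_add_shift h]
    rw [map_add, Pi.add_apply, T_pow_shift, T_pow_char_sgl]
    simp only [shift]
    rw [ih]
    by_cases h1 : l + 1 < p
    · rw [if_neg h1.ne, if_pos (by omega), if_pos h1, add_zero]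
    · by_cases h2 : l + 1 = p
      · rw [if_pos h2, if_pos (by omega), if_neg h1, add_zero]
        rw [show l + 1 - p = 0 by omega]
      · rw [if_neg h2, if_neg (by omega), if_neg h1, zero_add]
        rw [show l - p + 1 = l + 1 - p by omega]

end CharP

section Words

variable {ν : Type*} {R : Type*} [CommRing R]

/-- the product of the `T f i` along a word -/
noncomputable def TW (f : MvPolynomial ν R) (w : List ν) :
    (ℕ → MvPolynomial ν R) →ₗ[R] (ℕ → MvPolynomial ν R) := (w.map (T f)).prod

lemma TW_perm (f : MvPolynomial ν R) {w w' : List ν} (h : w.Perm w') : TW f w = TW f w' := by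
  unfold TW
  apply List.Perm.prod_eq' (h.map _)
  apply List.pairwise_of_forall_mem_list
  intro a ha b hb
  obtain ⟨i, -, rfl⟩ := List.mem_map.1 ha
  obtain ⟨j, -, rfl⟩ := List.mem_map.1 hb
  exact T_comm f i j

lemma TW_append (f : MvPolynomial ν R) (w w' : List ν) : TW f (w ++ w') = TW f w * TW f w' := by
  simp [TW]

lemma TW_replicate (f : MvPolynomial ν R) (i : ν) (m : ℕ) :
    TW f (List.replicate m i) = T f i ^ m := by
  simp [TW]

lemma TW_sgl_gt (f a : MvPolynomial ν R) (w : List ν) (l : ℕ) (hl : w.length < l) :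
    TW f w (sgl a) l = 0 := by
  induction w generalizing l with
  | nil => simp [TW, sgl]; simp at hl; omega
  | cons i w ih =>
    rw [TW, List.map_cons, List.prod_cons, Module.End.mul_apply]
    change T f i (TW f w (sgl a)) l = 0
    simp only [List.length_cons] at hl
    obtain ⟨l, rfl⟩ : ∃ l', l = l' + 1 := ⟨l - 1, by omega⟩
    rw [T_succ, ih _ (by omega), ih _ (by omega)]
    simp

/-- the Jacobian ideal -/
noncomputable def jac (f : MvPolynomial ν R) : Ideal (MvPolynomial ν R) :=
  Ideal.span (Set.range fun i => pderiv i f)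

/-- `𝓜_N`: sequences with `h_l ∈ J^(l-N)`. -/
def InM (f : MvPolynomial ν R) (N : ℕ) (h : ℕ → MvPolynomial ν R) : Prop :=
  ∀ l, h l ∈ (jac f) ^ (l - N)

variable [Fintype ν] [IsDomain R] (p : ℕ) [hp : Fact p.Prime] [CharP R p]

lemma exists_replicate_of_length [DecidableEq ν] (w : List ν) (p : ℕ) (hp : 0 < p)
    (hw : Fintype.card ν * (p - 1) < w.length) :
    ∃ i w', w.Perm (List.replicate p i ++ w') := by
  have h1 : ∑ i, w.count i = w.length := by
    have := Multiset.sum_count_eq_card (s := Finset.univ) (m := (w : Multiset ν)) (by simp)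
    simpa using this
  obtain ⟨i, hi⟩ : ∃ i, p ≤ w.count i := by
    by_contra hcon
    push Not at hcon
    have : ∑ i, w.count i ≤ ∑ _i : ν, (p - 1) := by
      apply Finset.sum_le_sum
      intro i _
      have := hcon i
      omega
    rw [Finset.sum_const, smul_eq_mul, Finset.card_univ, h1] at this
    omega
  obtain ⟨w', hw'⟩ := List.Sublist.exists_perm_append (List.replicate_sublist_iff.2 hi)
  exact ⟨i, w', hw'⟩

include p in
lemma TW_one_mem (f : MvPolynomial ν R) (w : List ν) :
    InM f (Fintype.card ν * (p - 1)) (TW f w (sgl 1)) := by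
  classical
  induction hn : w.length using Nat.strong_induction_on generalizing w with
  | _ n ih =>
    subst hn
    by_cases hw : Fintype.card ν * (p - 1) < w.length
    · obtain ⟨i, w', hw'⟩ := exists_replicate_of_length w p hp.out.pos hw
      have hlen : w.length = p + w'.length := by
        have := hw'.length_eq
        simpa using this
      have h1 := ih w'.length (by have := hp.out.pos; omega) w' rfl
      rw [TW_perm f hw', TW_append, TW_replicate]
      intro l
      rw [Module.End.mul_apply, T_pow_char p]
      split_ifs with hl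
      · exact zero_mem _
      · have h2 := h1 (l - p)
        have h3 : pderiv i f ^ p ∈ jac f ^ p :=
          Ideal.pow_mem_pow (Ideal.subset_span (Set.mem_range_self i)) p
        have h4 := Ideal.mul_mem_mul h3 h2
        rw [← pow_add] at h4
        exact Ideal.pow_le_pow_right (by omega) h4
    · intro l
      by_cases hl : w.length < l
      · rw [TW_sgl_gt _ _ _ _ hl]
        exact zero_mem _
      · rw [show l - Fintype.card ν * (p - 1) = 0 by omega]
        simp

end Words

end H50.DO
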