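import Mathlib

/-!
# Reduction to positive characteristic

Every finitely generated domain `R` over `ℤ` and every nonzero `z : R` admit a homomorphism to a
field of positive characteristic which does not kill `z`.
-/

namespace H50.DO

instance isJacobsonRing_int : IsJacobsonRing ℤ := by
  rw [isJacobsonRing_iff_prime_eq]
  intro P hP
  by_cases h : P = ⊥
  · subst h
    refine le_antisymm ?_ Ideal.le_jacobson
    intro x hx
    rw [Ideal.jacobson, Ideal.mem_sInf] at hx
    rw [Ideal.mem_bot]
    by_contra hx0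
    obtain ⟨p, hp, hpp⟩ := Nat.exists_infinite_primes (x.natAbs + 1)
    have hprime : Prime (p : ℤ) := Nat.prime_iff_prime_int.1 hpp
    have hm : (Ideal.span {(p : ℤ)}).IsMaximal :=
      PrincipalIdealRing.isMaximal_of_irreducible hprime.irreducible
    have h1 := hx ⟨bot_le, hm⟩
    rw [Ideal.mem_span_singleton] at h1
    have h2 := Int.natAbs_dvd_natAbs.2 h1
    rw [Int.natAbs_natCast] at h2
    have h3 := Nat.le_of_dvd (Int.natAbs_pos.2 hx0) h2
    omega
  · have hm : P.IsMaximal := IsPrime.to_maximal_ideal h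
    exact Ideal.jacobson_eq_self_of_isMaximal (H := hm)

lemma exists_char_of_finiteType_int (k : Type*) [Field k] [Algebra.FiniteType ℤ k] :
    ∃ p : ℕ, p.Prime ∧ CharP k p := by
  rcases CharP.exists k with ⟨p, hp⟩
  rcases CharP.char_is_prime_or_zero k p with h | h
  · exact ⟨p, h, hp⟩
  · exfalso
    subst h
    have : CharZero k := CharP.charP_to_charZero k
    have : Module.Finite ℤ k := finite_of_finite_type_of_isJacobsonRing ℤ k
    have hint : Algebra.IsIntegral ℤ k := inferInstance
    have : IsField ℤ := isField_of_isIntegral_of_isField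
      (by rw [injective_iff_map_eq_zero]; intro a ha; simpa using ha) (Field.toIsField k)
    exact Int.not_isField this

lemma exists_reduction (R : Type) [CommRing R] [IsDomain R] [hR : Algebra.FiniteType ℤ R]
    (z : R) (hz : z ≠ 0) :
    ∃ (p : ℕ) (_ : p.Prime) (k : Type) (_ : Field k) (_ : CharP k p) (φ : R →+* k), φ z ≠ 0 := by
  have : IsJacobsonRing R := isJacobsonRing_of_finiteType (A := ℤ)
  have h1 : (⊥ : Ideal R).jacobson = ⊥ :=
    IsJacobsonRing.out inferInstance (Ideal.isPrime_bot (α := R)).isRadical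
  have h2 : z ∉ (⊥ : Ideal R).jacobson := by
    rw [h1]
    simpa using hz
  rw [Ideal.jacobson, Ideal.mem_sInf] at h2
  push Not at h2
  obtain ⟨m, ⟨-, hm⟩, hzm⟩ := h2
  let F : Field (R ⧸ m) := Ideal.Quotient.field m
  have hft : Algebra.FiniteType ℤ (R ⧸ m) := by
    have h3 := Algebra.FiniteType.of_surjective (R := ℤ) (A := R) (B := R ⧸ m)
      (Ideal.Quotient.mkₐ ℤ m) (Ideal.Quotient.mkₐ_surjective ℤ m)
    exact h3
  obtain ⟨p, hp, hc⟩ := @exists_char_of_finiteType_int (R ⧸ m) F hft
  refine ⟨p, hp, R ⧸ m, F, hc, Ideal.Quotient.mk m, ?_⟩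
  rwa [Ne, Ideal.Quotient.eq_zero_iff_mem]

end H50.DO
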