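import Pool.Agent.H50.DO.Struct
import Pool.Agent.H50.DO.Spread

/-!
# The symbol bound

If `Q` is a differential operator (of any order) on `S = ℂ[x_1, …, x_ν]` which restricts to a
differential operator `P` of order `≤ n` on the subalgebra `A`, and `f ∈ A`, then the symbol
`a = (n!)⁻¹ ad(f)^n (P)(1)` satisfies `ord_t a(γ(t)) ≥ n · ord_t (df)(γ(t))` for every polynomial
arc `γ`.
-/

open MvPolynomial

namespace H50.DO

variable {ν : Type}

lemma Y_injective {R : Type} [CommRing R] [IsDomain R] [CharZero R] (f : MvPolynomial ν R)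
    {h h' : ℕ → MvPolynomial ν R} (H : ∀ l, Y f h l = Y f h' l) (l : ℕ) : h l = h' l := by
  induction l using Nat.strong_induction_on with
  | _ l ih =>
    have h1 := H l
    unfold Y at h1
    rw [Finset.sum_range_succ, Finset.sum_range_succ,
      Finset.sum_congr rfl (fun i hi => by rw [ih i (Finset.mem_range.1 hi)])] at h1
    have h2 := add_left_cancel h1
    rw [Nat.descFactorial_self, Nat.sub_self, pow_zero, one_mul, one_mul] at h2
    exact mul_left_cancel₀ (by exact_mod_cast Nat.factorial_ne_zero l) h2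

section Restrict

variable {A : Subalgebra ℂ (MvPolynomial ν ℂ)} {Q : Module.End ℂ (MvPolynomial ν ℂ)} {P : Module.End ℂ A}

lemma pow_restrict (h : ∀ a : A, Q a = ((P a : A) : MvPolynomial ν ℂ)) (j : ℕ) (a : A) :
    (Q ^ j) a = (((P ^ j) a : A) : MvPolynomial ν ℂ) := by
  induction j with
  | zero => simp
  | succ j ih => rw [pow_succ', Module.End.mul_apply, ih, h, pow_succ', Module.End.mul_apply]

lemma ad_restrict (h : ∀ a : A, Q a = ((P a : A) : MvPolynomial ν ℂ)) (f : A) (a : A) :
    ad (f : MvPolynomial ν ℂ) Q a = ((ad f P a : A) : MvPolynomial ν ℂ) := by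
  rw [ad_apply, ad_apply, ← Subalgebra.coe_mul, h, h]
  rfl

lemma adI_restrict (h : ∀ a : A, Q a = ((P a : A) : MvPolynomial ν ℂ)) (f : A) (n : ℕ) (a : A) :
    adI (f : MvPolynomial ν ℂ) n Q a = ((adI f n P a : A) : MvPolynomial ν ℂ) := by
  induction n generalizing Q P with
  | zero => exact h a
  | succ n ih => exact ih (fun a => ad_restrict h f a)

lemma symb_restrict (h : ∀ a : A, Q a = ((P a : A) : MvPolynomial ν ℂ)) (f : A) (n : ℕ) :
    symb (f : MvPolynomial ν ℂ) n Q = ((symb f n P : A) : MvPolynomial ν ℂ) := by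
  unfold symb
  have := adI_restrict h f n 1
  rw [Subalgebra.coe_one] at this
  rw [this]
  rfl

end Restrict

/-- coefficients of `e^{-cf} Q^j e^{cf}` applied to `1` -/
lemma evT_pow_apply (f : MvPolynomial ν ℂ) (e : WExp ν ℂ) (j i : ℕ) :
    (WExp.evT f e ^ j) (sgl 1) i = symb f i (WExp.ev e ^ j) := by
  refine Y_injective f (h' := fun i => symb f i (WExp.ev e ^ j)) ?_ i
  intro l
  rw [WExp.Y_evT_pow, Y_sgl, mul_one, apply_pow]
  unfold Y
  apply Finset.sum_congr rfl
  intro i _
  unfold symb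
  have h1 : ((i.factorial : ℕ) : ℂ) ≠ 0 := by exact_mod_cast Nat.factorial_ne_zero i
  have h2 : C ((i.factorial : ℂ)⁻¹) * ((i.factorial : ℕ) : MvPolynomial ν ℂ) = 1 := by
    rw [show ((i.factorial : ℕ) : MvPolynomial ν ℂ) = C ((i.factorial : ℕ) : ℂ) by simp, ← C_mul,
      inv_mul_cancel₀ h1, C_1]
  simp only
  rw [Nat.descFactorial_eq_factorial_mul_choose, MvPolynomial.smul_eq_C_mul, Nat.cast_mul]
  linear_combination (-1 : MvPolynomial ν ℂ) * ((l.choose i : MvPolynomial ν ℂ) *
    (f ^ (l - i) * adI f i (WExp.ev e ^ j) 1)) * h2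

section Final

lemma no_deep_powers {k : Type} [Field k] (g : Polynomial k) (o n e N : ℕ) (ho : o < n * e)
    (hg : g.coeff o ≠ 0)
    (H : ∀ j, (Polynomial.X : Polynomial k) ^ (e * (n * j - N)) ∣ g ^ j) : False := by
  have hg0 : g ≠ 0 := by rintro rfl; simp at hg
  have h1 : g.natTrailingDegree ≤ o := Polynomial.natTrailingDegree_le_of_ne_zero hg
  have h2 : ∀ j, (g ^ j).natTrailingDegree = j * g.natTrailingDegree := by
    intro j
    induction j with
    | zero => simp
    | succ j ih =>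
      rw [pow_succ, Polynomial.natTrailingDegree_mul (pow_ne_zero _ hg0) hg0, ih]
      ring
  have h3 : ∀ j, e * (n * j - N) ≤ j * o := by
    intro j
    have h4 : e * (n * j - N) ≤ (g ^ j).natTrailingDegree := by
      by_contra hcon
      push Not at hcon
      have h5 := Polynomial.X_pow_dvd_iff.1 (H j) _ hcon
      exact (Polynomial.coeff_natTrailingDegree_ne_zero.2 (pow_ne_zero j hg0)) h5
    rw [h2] at h4
    exact h4.trans (Nat.mul_le_mul_left j h1)
  have h6 := h3 (e * N + 1)
  have h7 : e * (n * (e * N + 1)) ≤ e * (n * (e * N + 1) - N) + e * N := by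
    rw [← mul_add]
    exact Nat.mul_le_mul_left e (by omega)
  have h8 : (e * N + 1) * (o + 1) ≤ (e * N + 1) * (n * e) := Nat.mul_le_mul_left _ ho
  nlinarith

/-- **The symbol bound.** -/
theorem symbol_bound [Fintype ν] {A : Subalgebra ℂ (MvPolynomial ν ℂ)} {Q : Module.End ℂ (MvPolynomial ν ℂ)}
    (hQ : ∃ N, DOp N Q) {P : Module.End ℂ A} (hPQ : ∀ a : A, Q a = ((P a : A) : MvPolynomial ν ℂ)) {n : ℕ}
    (hP : DOp (n + 1) P) (f : A) (γ : ν → Polynomial ℂ) (e : ℕ)
    (he : ∀ i, (Polynomial.X : Polynomial ℂ) ^ e ∣ aeval γ (pderiv i (f : MvPolynomial ν ℂ))) :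
    (Polynomial.X : Polynomial ℂ) ^ (n * e) ∣ aeval γ ((symb f n P : A) : MvPolynomial ν ℂ) := by
  classical
  obtain ⟨N, hN⟩ := hQ
  obtain ⟨E, hE⟩ := isExpr_of_DOp hN
  rw [Polynomial.X_pow_dvd_iff]
  intro o ho
  by_contra hz
  -- the finitely generated ring
  let F : Finset ℂ := (WExp.cf E ∪ (f : MvPolynomial ν ℂ).coeffs) ∪ Finset.univ.biUnion fun i => (γ i).coeffs
  let R : Subalgebra ℤ ℂ := Algebra.adjoin ℤ (F : Set ℂ)
  have hRF : ∀ x ∈ F, x ∈ R := fun x hx => Algebra.subset_adjoin hx
  have hft : Algebra.FiniteType ℤ R := by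
    rw [← Subalgebra.fg_iff_finiteType]
    exact Subalgebra.fg_adjoin_finset F
  let ι : R →+* ℂ := R.val.toRingHom
  have hι : Function.Injective ι := Subtype.val_injective
  have hrange : ∀ x ∈ F, x ∈ Set.range ι := fun x hx => ⟨⟨x, hRF x hx⟩, rfl⟩
  obtain ⟨ER, hER⟩ := WExp.exists_bc_eq ι E (fun x hx => hrange x (by
    simp only [F, Finset.mem_union]; left; left; exact hx))
  obtain ⟨fR, hfR⟩ := WExp.exists_map_eq ι (f : MvPolynomial ν ℂ) (fun x hx => hrange x (by
    simp only [F, Finset.mem_union]; left; right; exact hx))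
  have hγ : ∀ i, ∃ g : Polynomial R, g.map ι = γ i := by
    intro i
    have h1 : γ i ∈ Polynomial.lifts ι := by
      rw [Polynomial.lifts_iff_coeff_lifts]
      intro m
      by_cases hm : (γ i).coeff m = 0
      · exact ⟨0, by simp [hm]⟩
      · apply hrange
        simp only [F, Finset.mem_union, Finset.mem_biUnion, Finset.mem_univ, true_and]
        right
        exact ⟨i, Polynomial.coeff_mem_coeffs hm⟩
    exact (Polynomial.mem_lifts _).1 h1
  choose γR hγR using hγ
  -- the sequences over R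
  let s : ℕ → ℕ → MvPolynomial ν R := fun j => (WExp.evT fR ER ^ j) (sgl 1)
  have hs : ∀ j l, map ι (s j l) = symb (f : MvPolynomial ν ℂ) l (Q ^ j) := by
    intro j l
    have h1 := congrFun (WExp.seqMap_evT_pow ι fR ER (sgl 1) j) l
    rw [WExp.seqMap_sgl, hfR, hER, map_one, evT_pow_apply, hE] at h1
    exact h1
  have hmapinj : Function.Injective (map ι : MvPolynomial ν R → MvPolynomial ν ℂ) :=
    MvPolynomial.map_injective ι hι
  have hpowR : ∀ j, s j (n * j) = (s 1 n) ^ j := by
    intro j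
    apply hmapinj
    rw [map_pow, hs, hs, pow_one, symb_restrict (fun a => pow_restrict hPQ j a) f,
      symb_restrict hPQ f, symb_pow f hP]
    rfl
  have hs1 : map ι (s 1 n) = ((symb f n P : A) : MvPolynomial ν ℂ) := by
    rw [hs, pow_one, symb_restrict hPQ f]
  -- evaluation along arcs
  let θR : MvPolynomial ν R →+* Polynomial R := eval₂Hom Polynomial.C γR
  have hθR : ∀ q, (θR q).map ι = aeval γ (map ι q) := by
    intro q
    have h2 : (Polynomial.mapRingHom ι).comp θR =
        ((aeval γ : MvPolynomial ν ℂ →ₐ[ℂ] Polynomial ℂ) : MvPolynomial ν ℂ →+* Polynomial ℂ).comp (map ι) := by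
      apply MvPolynomial.ringHom_ext
      · intro r
        simp [θR]
      · intro i
        simp [θR, hγR]
    exact RingHom.congr_fun h2 q
  have hcoef : ∀ q l, ι ((θR q).coeff l) = (aeval γ (map ι q)).coeff l := by
    intro q l
    rw [← hθR, Polynomial.coeff_map]
  have hz' : (θR (s 1 n)).coeff o ≠ 0 := by
    intro h0
    apply hz
    rw [← hs1, ← hcoef, h0, map_zero]
  obtain ⟨p, hp, k, hk, hkp, φ, hφ⟩ := exists_reduction R _ hz'
  have : Fact p.Prime := ⟨hp⟩
  let θ : MvPolynomial ν k →+* Polynomial k := eval₂Hom Polynomial.C (fun i => (γR i).map φ)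
  have hθ : ∀ q, θ (map φ q) = (θR q).map φ := by
    intro q
    have h2 : θ.comp (map φ) = (Polynomial.mapRingHom φ).comp θR := by
      apply MvPolynomial.ringHom_ext
      · intro r
        simp [θR, θ]
      · intro i
        simp [θR, θ]
    exact RingHom.congr_fun h2 q
  refine no_deep_powers (θ (map φ (s 1 n))) o n e (Fintype.card ν * (p - 1)) ho ?_ ?_
  · rw [hθ, Polynomial.coeff_map]
    exact hφ
  · intro j
    -- membership in a power of the Jacobian ideal
    have h3 := WExp.evT_pow_mem p (map φ fR) (WExp.bc φ ER) j (n * j)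
    have h4 : (WExp.evT (map φ fR) (WExp.bc φ ER) ^ j) (sgl 1) (n * j) = (map φ (s 1 n)) ^ j := by
      have h1 := congrFun (WExp.seqMap_evT_pow φ fR ER (sgl 1) j) (n * j)
      rw [WExp.seqMap_sgl, map_one] at h1
      rw [← h1, ← map_pow, ← hpowR]
      rfl
    rw [h4] at h3
    have h5 : Ideal.map θ (jac (map φ fR)) ≤ Ideal.span {(Polynomial.X : Polynomial k) ^ e} := by
      unfold jac
      rw [Ideal.map_span, Ideal.span_le]
      rintro _ ⟨_, ⟨i, rfl⟩, rfl⟩
      simp only
      rw [SetLike.mem_coe, Ideal.mem_span_singleton, MvPolynomial.pderiv_map, hθ,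
        Polynomial.X_pow_dvd_iff]
      intro d hd
      rw [Polynomial.coeff_map]
      have h6 : (θR (pderiv i fR)).coeff d = 0 := by
        apply hι
        rw [hcoef, map_zero, ← MvPolynomial.pderiv_map, hfR]
        exact Polynomial.X_pow_dvd_iff.1 (he i) d hd
      rw [h6, map_zero]
    have h7 : θ ((map φ (s 1 n)) ^ j) ∈
        (Ideal.span {(Polynomial.X : Polynomial k) ^ e}) ^ (n * j - Fintype.card ν * (p - 1)) := by
      refine Ideal.pow_right_mono h5 _ ?_
      rw [← Ideal.map_pow]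
      exact Ideal.mem_map_of_mem θ h3
    rw [Ideal.span_singleton_pow, Ideal.mem_span_singleton, ← pow_mul, map_pow] at h7
    exact h7

end Final

end H50.DO
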