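import Pool.Agent.H50.DO.Polar
import Pool.Agent.H50.DO.Symbol

/-!
# The degree bound

A nonzero operator on a graded subalgebra `A ⊆ ℂ[x_1, …, x_ν]` which lowers degrees by `κ` and is
the restriction of a differential operator (of any order) on the polynomial ring has order at
least `κ`.
-/

open MvPolynomial

namespace H50.DO

variable {ν : Type}

/-- `A` is a graded subalgebra. -/
def IsGraded (A : Subalgebra ℂ (MvPolynomial ν ℂ)) : Prop :=
  ∀ a ∈ A, ∀ d, homogeneousComponent d a ∈ A

/-- `P` shifts degrees by `k` -/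
def HomDeg {A : Subalgebra ℂ (MvPolynomial ν ℂ)} (k : ℤ) (P : Module.End ℂ A) : Prop :=
  ∀ (d : ℕ) (a : A), (a : MvPolynomial ν ℂ).IsHomogeneous d →
    (∃ d' : ℕ, (d' : ℤ) = d + k ∧ ((P a : A) : MvPolynomial ν ℂ).IsHomogeneous d') ∨ P a = 0

section

variable {A : Subalgebra ℂ (MvPolynomial ν ℂ)}

lemma HomDeg.ad {k : ℤ} {P : Module.End ℂ A} (hP : HomDeg k P) {f : A} {df : ℕ}
    (hf : (f : MvPolynomial ν ℂ).IsHomogeneous df) : HomDeg (k + df) (H50.DO.ad f P) := by
  intro d a ha
  rw [ad_apply]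
  have h1 : ((f * a : A) : MvPolynomial ν ℂ).IsHomogeneous (df + d) := by
    rw [Subalgebra.coe_mul]
    exact hf.mul ha
  rcases hP _ _ h1 with ⟨d1, hd1, h2⟩ | h2
  · rcases hP _ _ ha with ⟨d2, hd2, h3⟩ | h3
    · left
      refine ⟨d1, by push_cast at hd1; omega, ?_⟩
      have h4 : ((f * P a : A) : MvPolynomial ν ℂ).IsHomogeneous (df + d2) := by
        rw [Subalgebra.coe_mul]
        exact hf.mul h3
      have h5 : df + d2 = d1 := by push_cast at hd1; omega
      rw [h5] at h4
      exact h2.sub h4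
    · left
      refine ⟨d1, by push_cast at hd1; omega, ?_⟩
      rw [h3, mul_zero, sub_zero]
      exact h2
  · rcases hP _ _ ha with ⟨d2, hd2, h3⟩ | h3
    · left
      refine ⟨df + d2, by push_cast; omega, ?_⟩
      rw [h2, zero_sub]
      have h4 : ((f * P a : A) : MvPolynomial ν ℂ).IsHomogeneous (df + d2) := by
        rw [Subalgebra.coe_mul]
        exact hf.mul h3
      exact h4.neg
    · right
      rw [h2, h3, mul_zero, sub_zero]

lemma HomDeg.adI {k : ℤ} {P : Module.End ℂ A} (hP : HomDeg k P) {f : A} {df : ℕ}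
    (hf : (f : MvPolynomial ν ℂ).IsHomogeneous df) (n : ℕ) :
    HomDeg (k + n * df) (H50.DO.adI f n P) := by
  induction n generalizing k P with
  | zero => simpa [H50.DO.adI] using hP
  | succ n ih =>
    have h1 := ih (hP.ad hf)
    have h2 : k + df + n * df = k + ((n + 1 : ℕ) : ℤ) * df := by push_cast; ring
    rw [h2] at h1
    exact h1

lemma aeval_line {q : MvPolynomial ν ℂ} {m : ℕ} (hq : q.IsHomogeneous m) (v : ν → ℂ) :
    aeval (fun i => Polynomial.C (v i) * Polynomial.X) q =
      Polynomial.C (eval v q) * Polynomial.X ^ m := by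
  conv_lhs => rw [q.as_sum]
  conv_rhs => rw [q.as_sum]
  rw [map_sum, map_sum, map_sum, Finset.sum_mul]
  apply Finset.sum_congr rfl
  intro s hs
  have h1 : s.degree = m := by
    by_contra hne
    exact (mem_support_iff.1 hs) (hq.coeff_eq_zero hne)
  rw [aeval_monomial, eval_monomial, map_mul]
  rw [← h1, Finsupp.degree_apply, Finsupp.prod, Finsupp.prod, ← Finset.prod_pow_eq_pow_sum]
  simp_rw [mul_pow]
  rw [Finset.prod_mul_distrib, map_prod]
  simp only [map_pow, Polynomial.algebraMap_eq]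
  ring

end

variable [Fintype ν] {A : Subalgebra ℂ (MvPolynomial ν ℂ)}

section step

variable {Q : Module.End ℂ (MvPolynomial ν ℂ)} (hQ : ∃ N, DOp N Q) {P : Module.End ℂ A}
  (hPQ : ∀ a : A, Q a = ((P a : A) : MvPolynomial ν ℂ)) {n κ : ℕ} (hP : DOp (n + 1) P)
  (hκ : n < κ) (hdeg : HomDeg (-(κ : ℤ)) P)

include hQ hPQ hP hκ hdeg

lemma adI_homogeneous_eq_zero {f : A} {d : ℕ} (hd : 0 < d)
    (hf : (f : MvPolynomial ν ℂ).IsHomogeneous d) : adI f n P = 0 := by
  rw [hP.adI_eq_mul f]
  have hkey : (symb f n P : A) = 0 := by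
    by_contra hne
    have h1 := (hdeg.adI hf n) 0 1 (isHomogeneous_one ν ℂ)
    have h2 : adI f n P 1 ≠ 0 := by
      intro h0
      apply hne
      unfold symb
      rw [h0, smul_zero]
    obtain ⟨d', hd', h3⟩ := h1.resolve_right h2
    have h4 : ((symb f n P : A) : MvPolynomial ν ℂ).IsHomogeneous d' := by
      unfold symb
      exact (homogeneousSubmodule ν ℂ d').smul_mem _ h3
    have h5 : ((symb f n P : A) : MvPolynomial ν ℂ) ≠ 0 := by
      intro h0
      exact hne (Subtype.ext h0)
    obtain ⟨v, hv⟩ : ∃ v, eval v ((symb f n P : A) : MvPolynomial ν ℂ) ≠ 0 := by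
      by_contra hcon
      push Not at hcon
      exact h5 (MvPolynomial.funext (fun v => by rw [hcon v, map_zero]))
    have h6 := symbol_bound hQ hPQ hP f (fun i => Polynomial.C (v i) * Polynomial.X) (d - 1)
      (fun i => by
        rw [aeval_line (hf.pderiv (i := i))]
        exact Dvd.intro_left _ rfl)
    rw [aeval_line h4, Polynomial.X_pow_dvd_iff] at h6
    have h7 : ¬ d' < n * (d - 1) := by
      intro hlt
      have := h6 d' hlt
      rw [Polynomial.coeff_C_mul, Polynomial.coeff_X_pow_self, mul_one] at this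
      exact hv this
    obtain ⟨e, rfl⟩ : ∃ e, d = e + 1 := ⟨d - 1, by omega⟩
    rw [Nat.add_sub_cancel] at h7
    push_cast at hd'
    have h8 : (n : ℤ) * e ≤ d' := by exact_mod_cast not_lt.1 h7
    have h9 : (n : ℤ) < κ := by exact_mod_cast hκ
    rw [mul_add] at hd'
    linarith
  unfold symb at hkey
  have h1 : ((n.factorial : ℂ))⁻¹ ≠ 0 :=
    inv_ne_zero (by exact_mod_cast Nat.factorial_ne_zero n)
  rw [(smul_eq_zero.1 hkey).resolve_left h1]
  simp

omit [Fintype ν] hQ hPQ hP hκ hdeg in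
lemma exists_common_degree (l : List A)
    (hl : ∀ f ∈ l, ∃ d, 0 < d ∧ (f : MvPolynomial ν ℂ).IsHomogeneous d) :
    ∃ D, 0 < D ∧ ∀ f ∈ l, ∃ m, ((f ^ (m + 1) : A) : MvPolynomial ν ℂ).IsHomogeneous D := by
  induction l with
  | nil => exact ⟨1, one_pos, by simp⟩
  | cons f l ih =>
    obtain ⟨D, hD, h1⟩ := ih (fun g hg => hl g (by simp [hg]))
    obtain ⟨d, hd, h2⟩ := hl f (by simp)
    refine ⟨d * D, Nat.mul_pos hd hD, ?_⟩
    intro g hg
    rcases List.mem_cons.1 hg with rfl | hg
    · refine ⟨D - 1, ?_⟩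
      rw [show D - 1 + 1 = D by omega, Subalgebra.coe_pow]
      exact h2.pow D
    · obtain ⟨m, hm⟩ := h1 g hg
      refine ⟨(m + 1) * d - 1, ?_⟩
      have h3 : 0 < (m + 1) * d := Nat.mul_pos (by omega) hd
      rw [show (m + 1) * d - 1 + 1 = (m + 1) * d by omega, Subalgebra.coe_pow, pow_mul,
        mul_comm d D]
      rw [Subalgebra.coe_pow] at hm
      exact hm.pow d

lemma adL_homogeneous_eq_zero (l : List A) (hl : l.length = n)
    (hl' : ∀ f ∈ l, ∃ d, 0 < d ∧ (f : MvPolynomial ν ℂ).IsHomogeneous d) : adL l P = 0 := by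
  obtain ⟨D, hD, h1⟩ := exists_common_degree l hl'
  let H : Submodule ℂ A := (homogeneousSubmodule ν ℂ D).comap A.val.toLinearMap
  have h2 : ∀ f ∈ H, adI f n P = 0 := fun f hf =>
    adI_homogeneous_eq_zero hQ hPQ hP hκ hdeg hD hf
  have h3 := adL_roots H hP h2 l [] (by simpa using hl) (fun f hf => h1 f hf) (by simp)
  rwa [List.append_nil] at h3

lemma adL_all_eq_zero (hA : IsGraded A) (l₁ l₂ : List A) (hl : l₁.length + l₂.length = n)
    (hl₂ : ∀ f ∈ l₂, ∃ d, 0 < d ∧ (f : MvPolynomial ν ℂ).IsHomogeneous d) :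
    adL (l₁ ++ l₂) P = 0 := by
  induction l₁ generalizing l₂ with
  | nil => exact adL_homogeneous_eq_zero hQ hPQ hP hκ hdeg l₂ (by simpa using hl) hl₂
  | cons f l₁ ih =>
    rw [List.cons_append, adL_cons]
    let F : ℕ → A := fun d => ⟨homogeneousComponent d (f : MvPolynomial ν ℂ), hA f f.2 d⟩
    have hF : f = ∑ d ∈ Finset.range ((f : MvPolynomial ν ℂ).totalDegree + 1), F d := by
      apply Subtype.ext
      rw [AddSubmonoidClass.coe_finsetSum]
      exact (sum_homogeneousComponent _).symm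
    have hsum : ∀ (s : Finset ℕ) (E : Module.End ℂ A),
        ad (∑ d ∈ s, F d) E = ∑ d ∈ s, ad (F d) E := by
      intro s E
      induction s using Finset.induction_on with
      | empty => ext a; simp [ad_apply]
      | insert i s hi ihs => rw [Finset.sum_insert hi, ad_add_left, ihs, Finset.sum_insert hi]
    rw [hF, hsum]
    apply Finset.sum_eq_zero
    intro d _
    rcases Nat.eq_zero_or_pos d with rfl | hd
    · have h1 : F 0 = algebraMap ℂ A (coeff 0 (f : MvPolynomial ν ℂ)) := by
        apply Subtype.ext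
        simp [F, homogeneousComponent_zero, MvPolynomial.algebraMap_eq]
      apply LinearMap.ext
      intro a
      rw [h1, ad_apply, LinearMap.zero_apply, ← Algebra.smul_def, ← Algebra.smul_def, map_smul,
        sub_self]
    · rw [← adL_cons]
      have h3 : (F d :: (l₁ ++ l₂)).Perm (l₁ ++ (F d :: l₂)) := List.perm_middle.symm
      rw [adL_perm h3]
      apply ih
      · simp only [List.length_cons] at hl ⊢
        omega
      · intro g hg
        rcases List.mem_cons.1 hg with rfl | hg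
        · exact ⟨d, hd, homogeneousComponent_isHomogeneous d _⟩
        · exact hl₂ g hg

lemma DOp_pred (hA : IsGraded A) : DOp n P := by
  rw [DOp_iff_adL]
  intro l hl
  have := adL_all_eq_zero hQ hPQ hP hκ hdeg hA l [] (by simpa using hl) (by simp)
  rwa [List.append_nil] at this

end step

/-- **The degree bound.** -/
theorem degree_bound (hA : IsGraded A) {Q : Module.End ℂ (MvPolynomial ν ℂ)}
    (hQ : ∃ N, DOp N Q) {P : Module.End ℂ A}
    (hPQ : ∀ a : A, Q a = ((P a : A) : MvPolynomial ν ℂ)) {n κ : ℕ} (hP : DOp (n + 1) P)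
    (hκ : n < κ) (hdeg : HomDeg (-(κ : ℤ)) P) : P = 0 := by
  have h : ∀ m, m ≤ n + 1 → DOp (n + 1 - m) P := by
    intro m
    induction m with
    | zero => intro _; exact hP
    | succ m ih =>
      intro hm
      have h1 := ih (by omega)
      rw [show n + 1 - m = (n - m) + 1 by omega] at h1
      have h2 := DOp_pred hQ hPQ h1 (by omega) hdeg hA
      rwa [show n + 1 - (m + 1) = n - m by omega]
  have := h (n + 1) le_rfl
  rwa [Nat.sub_self] at this

end H50.DO
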