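import Mathlib

/-!
# Grothendieck differential operators

`DOp n P` : the ℂ-linear operator `P` on the commutative algebra `A` is a differential operator
of order `< n`, i.e. `P ∈ D^{n-1}(A)`, where `D^{-1}(A) = 0` and
`D^n(A) = {P : [P, f] ∈ D^{n-1}(A) for all f}`.
-/

namespace H50.DO

variable {A : Type*} [CommRing A] [Algebra ℂ A]

/-- the commutator `[P, f]` with multiplication by `f` -/
noncomputable def ad (f : A) (P : Module.End ℂ A) : Module.End ℂ A :=
  P * LinearMap.mulLeft ℂ f - LinearMap.mulLeft ℂ f * P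

/-- `DOp n P` means `P ∈ D^{n-1}(A)` (order `< n`). -/
def DOp : ℕ → Module.End ℂ A → Prop
  | 0, P => P = 0
  | n + 1, P => ∀ f : A, DOp n (ad f P)

lemma ad_apply (f : A) (P : Module.End ℂ A) (a : A) : ad f P a = P (f * a) - f * P a := rfl

@[simp] lemma ad_zero (f : A) : ad f (0 : Module.End ℂ A) = 0 := by
  simp [ad]

lemma ad_add (f : A) (P Q : Module.End ℂ A) : ad f (P + Q) = ad f P + ad f Q := by
  ext a; simp only [ad_apply, LinearMap.add_apply]; ring

lemma ad_neg (f : A) (P : Module.End ℂ A) : ad f (-P) = -ad f P := by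
  ext a; simp only [ad_apply, LinearMap.neg_apply]; ring

lemma ad_sub (f : A) (P Q : Module.End ℂ A) : ad f (P - Q) = ad f P - ad f Q := by
  ext a; simp only [ad_apply, LinearMap.sub_apply]; ring

lemma ad_smul (c : ℂ) (f : A) (P : Module.End ℂ A) : ad f (c • P) = c • ad f P := by
  ext a; simp only [ad_apply, LinearMap.smul_apply, mul_smul_comm, smul_sub]

lemma ad_sum {ι : Type*} (s : Finset ι) (f : A) (P : ι → Module.End ℂ A) :
    ad f (∑ i ∈ s, P i) = ∑ i ∈ s, ad f (P i) := by
  classical
  induction s using Finset.induction_on with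
  | empty => simp
  | insert i s hi ih => rw [Finset.sum_insert hi, ad_add, ih, Finset.sum_insert hi]

lemma ad_mul (f : A) (P Q : Module.End ℂ A) : ad f (P * Q) = ad f P * Q + P * ad f Q := by
  ext a; simp only [ad_apply, Module.End.mul_apply, LinearMap.add_apply, map_sub]; ring

lemma ad_mulLeft (f g : A) : ad f (LinearMap.mulLeft ℂ g) = 0 := by
  ext a; simp only [ad_apply, LinearMap.mulLeft_apply, LinearMap.zero_apply]; ring

lemma ad_comm (f g : A) (P : Module.End ℂ A) : ad f (ad g P) = ad g (ad f P) := by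
  ext a; simp only [ad_apply]
  rw [show g * (f * a) = f * (g * a) by ring]
  ring

lemma ad_add_left (f g : A) (P : Module.End ℂ A) : ad (f + g) P = ad f P + ad g P := by
  ext a; simp only [ad_apply, LinearMap.add_apply, add_mul, map_add]; ring

lemma ad_smul_left (c : ℂ) (f : A) (P : Module.End ℂ A) : ad (c • f) P = c • ad f P := by
  ext a; simp only [ad_apply, LinearMap.smul_apply, smul_mul_assoc, map_smul, smul_sub]

lemma ad_mul_left (f g : A) (P : Module.End ℂ A) :
    ad (f * g) P = ad g P * LinearMap.mulLeft ℂ f + LinearMap.mulLeft ℂ g * ad f P := by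
  ext a
  simp only [ad_apply, LinearMap.add_apply, Module.End.mul_apply, LinearMap.mulLeft_apply]
  rw [show f * g * a = g * (f * a) by ring]
  ring

lemma DOp_zero_iff {P : Module.End ℂ A} : DOp 0 P ↔ P = 0 := Iff.rfl

lemma DOp_succ_iff {n : ℕ} {P : Module.End ℂ A} : DOp (n + 1) P ↔ ∀ f, DOp n (ad f P) := Iff.rfl

lemma DOp.zero (n : ℕ) : DOp n (0 : Module.End ℂ A) := by
  induction n with
  | zero => rfl
  | succ n ih => intro f; rw [ad_zero]; exact ih

lemma DOp.add {n : ℕ} {P Q : Module.End ℂ A} (hP : DOp n P) (hQ : DOp n Q) : DOp n (P + Q) := by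
  induction n generalizing P Q with
  | zero => rw [DOp_zero_iff] at *; simp [hP, hQ]
  | succ n ih => intro f; rw [ad_add]; exact ih (hP f) (hQ f)

lemma DOp.smul {n : ℕ} {P : Module.End ℂ A} (c : ℂ) (hP : DOp n P) : DOp n (c • P) := by
  induction n generalizing P with
  | zero => rw [DOp_zero_iff] at *; simp [hP]
  | succ n ih => intro f; rw [ad_smul]; exact ih (hP f)

lemma DOp.neg {n : ℕ} {P : Module.End ℂ A} (hP : DOp n P) : DOp n (-P) := by
  have h : (-1 : ℂ) • P = -P := by ext a; simp
  rw [← h]
  exact hP.smul (-1)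

lemma DOp.sub {n : ℕ} {P Q : Module.End ℂ A} (hP : DOp n P) (hQ : DOp n Q) : DOp n (P - Q) := by
  rw [sub_eq_add_neg]; exact hP.add hQ.neg

lemma DOp.sum {ι : Type*} {n : ℕ} (s : Finset ι) {P : ι → Module.End ℂ A}
    (hP : ∀ i ∈ s, DOp n (P i)) : DOp n (∑ i ∈ s, P i) := by
  classical
  induction s using Finset.induction_on with
  | empty => simpa using DOp.zero n
  | insert i s hi ih =>
    rw [Finset.sum_insert hi]
    exact (hP i (by simp)).add (ih fun j hj => hP j (by simp [hj]))

lemma DOp.succ {n : ℕ} {P : Module.End ℂ A} (hP : DOp n P) : DOp (n + 1) P := by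
  induction n generalizing P with
  | zero => rw [DOp_zero_iff] at hP; subst hP; exact DOp.zero 1
  | succ n ih => intro f; exact ih (hP f)

lemma DOp.mono {m n : ℕ} (h : m ≤ n) {P : Module.End ℂ A} (hP : DOp m P) : DOp n P := by
  induction n, h using Nat.le_induction with
  | base => exact hP
  | succ n _ ih => exact ih.succ

lemma DOp.ad {n : ℕ} {P : Module.End ℂ A} (hP : DOp (n + 1) P) (f : A) : DOp n (ad f P) := hP f

lemma DOp_mulLeft (g : A) : DOp 1 (LinearMap.mulLeft ℂ g) := by
  intro f
  rw [ad_mulLeft]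
  rfl

lemma DOp.comp {m n : ℕ} {P Q : Module.End ℂ A} (hP : DOp (m + 1) P) (hQ : DOp (n + 1) Q) :
    DOp (m + n + 1) (P * Q) := by
  induction hk : m + n generalizing m n P Q with
  | zero =>
    obtain ⟨rfl, rfl⟩ : m = 0 ∧ n = 0 := by omega
    intro f
    rw [ad_mul]
    have h1 : H50.DO.ad f P = 0 := hP f
    have h2 : H50.DO.ad f Q = 0 := hQ f
    rw [h1, h2]
    simpa using DOp.zero (A := A) 0
  | succ k ih =>
    intro f
    rw [ad_mul]
    apply DOp.add
    · rcases m with _ | m
      · have h1 : H50.DO.ad f P = 0 := hP f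
        rw [h1, zero_mul]
        exact DOp.zero _
      · exact ih (hP f) hQ (by omega)
    · rcases n with _ | n
      · have h1 : H50.DO.ad f Q = 0 := hQ f
        rw [h1, mul_zero]
        exact DOp.zero _
      · exact ih hP (hQ f) (by omega)

lemma DOp.comp_zero_left {n : ℕ} {P Q : Module.End ℂ A} (hP : DOp 1 P) (hQ : DOp n Q) :
    DOp n (P * Q) := by
  cases n with
  | zero => rw [DOp_zero_iff] at *; simp [hQ]
  | succ n => simpa using DOp.comp (m := 0) hP hQ

lemma DOp.comp_zero_right {n : ℕ} {P Q : Module.End ℂ A} (hP : DOp n P) (hQ : DOp 1 Q) :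
    DOp n (P * Q) := by
  cases n with
  | zero => rw [DOp_zero_iff] at *; simp [hP]
  | succ n => simpa using DOp.comp (n := 0) hP hQ

lemma DOp.pow {n : ℕ} {P : Module.End ℂ A} (hP : DOp (n + 1) P) (j : ℕ) :
    DOp (n * j + 1) (P ^ j) := by
  induction j with
  | zero =>
    rw [pow_zero, mul_zero]
    have := DOp_mulLeft (1 : A)
    rwa [LinearMap.mulLeft_one] at this
  | succ j ih => rw [pow_succ, show n * (j + 1) + 1 = n * j + n + 1 by ring]; exact ih.comp hP

/-- operators of order `≤ 0` are multiplications -/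
lemma DOp.eq_mulLeft {P : Module.End ℂ A} (hP : DOp 1 P) : P = LinearMap.mulLeft ℂ (P 1) := by
  ext a
  have h := LinearMap.congr_fun (hP a : H50.DO.ad a P = 0) 1
  rw [ad_apply, mul_one, LinearMap.zero_apply, sub_eq_zero] at h
  rw [h, LinearMap.mulLeft_apply, mul_comm]

/-- iterated commutators -/
noncomputable def adI (f : A) : ℕ → Module.End ℂ A → Module.End ℂ A
  | 0, P => P
  | n + 1, P => adI f n (ad f P)

lemma adI_succ' (f : A) (n : ℕ) (P : Module.End ℂ A) : adI f (n + 1) P = ad f (adI f n P) := by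
  induction n generalizing P with
  | zero => rfl
  | succ n ih => rw [adI, ih, adI]

@[simp] lemma adI_zero_right (f : A) (n : ℕ) : adI f n (0 : Module.End ℂ A) = 0 := by
  induction n with
  | zero => rfl
  | succ n ih => rw [adI, ad_zero, ih]

lemma adI_add (f : A) (n : ℕ) (P Q : Module.End ℂ A) :
    adI f n (P + Q) = adI f n P + adI f n Q := by
  induction n generalizing P Q with
  | zero => rfl
  | succ n ih => rw [adI, ad_add, ih]; rfl

lemma adI_smul (f : A) (n : ℕ) (c : ℂ) (P : Module.End ℂ A) :
    adI f n (c • P) = c • adI f n P := by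
  induction n generalizing P with
  | zero => rfl
  | succ n ih => rw [adI, ad_smul, ih]; rfl

lemma DOp.adI {m n : ℕ} {P : Module.End ℂ A} (hP : DOp (m + n) P) (f : A) :
    DOp m (adI f n P) := by
  induction n generalizing P with
  | zero => exact hP
  | succ n ih => exact ih (hP f)

lemma DOp.adI_eq_zero {n i : ℕ} {P : Module.End ℂ A} (hP : DOp n P) (f : A) (h : n ≤ i) :
    H50.DO.adI f i P = 0 := by
  have : DOp 0 (H50.DO.adI f i P) := DOp.adI (by rw [zero_add]; exact hP.mono h) f
  exact this

/-- the value `P (f^l)` -/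
lemma apply_pow (f : A) (P : Module.End ℂ A) (l : ℕ) :
    P (f ^ l) = ∑ i ∈ Finset.range (l + 1), (l.choose i : A) * (f ^ (l - i) * adI f i P 1) := by
  induction l generalizing P with
  | zero => simp [adI]
  | succ l ih =>
    have h1 : P (f ^ (l + 1)) = ad f P (f ^ l) + f * P (f ^ l) := by
      rw [ad_apply, pow_succ']; ring
    rw [h1, ih, ih, Finset.mul_sum, Finset.sum_range_succ' (n := l + 1)]
    have h2 : ∑ i ∈ Finset.range (l + 1), f * ((l.choose i : A) * (f ^ (l - i) * adI f i P 1)) =
        ∑ i ∈ Finset.range (l + 1),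
          (l.choose (i + 1) : A) * (f ^ (l + 1 - (i + 1)) * adI f (i + 1) P 1) +
        ((l.choose 0 : A) * (f ^ (l + 1 - 0) * adI f 0 P 1)) := by
      rw [← Finset.sum_range_succ'
        (fun i => (l.choose i : A) * (f ^ (l + 1 - i) * adI f i P 1)) (l + 1)]
      rw [Finset.sum_range_succ _ (l + 1), Nat.choose_succ_self]
      simp only [Nat.cast_zero, zero_mul, add_zero]
      apply Finset.sum_congr rfl
      intro i hi
      rw [Finset.mem_range] at hi
      rw [show l + 1 - i = (l - i) + 1 by omega, pow_succ]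
      ring
    rw [h2, ← add_assoc, ← Finset.sum_add_distrib]
    congr 1
    · apply Finset.sum_congr rfl
      intro i _
      rw [Nat.choose_succ_succ', Nat.cast_add]
      rw [show l + 1 - (i + 1) = l - i by omega]
      simp only [adI]
      ring
    · simp

/-- top order part of a product -/
lemma adI_mul_top (f : A) {m n : ℕ} {P Q : Module.End ℂ A} (hP : adI f (m + 1) P = 0)
    (hQ : adI f (n + 1) Q = 0) :
    adI f (m + n) (P * Q) = ((m + n).choose m : ℂ) • (adI f m P * adI f n Q) := by
  induction hk : m + n generalizing m n P Q with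
  | zero =>
    obtain ⟨rfl, rfl⟩ : m = 0 ∧ n = 0 := by omega
    simp [adI]
  | succ k ih =>
    rw [adI, ad_mul, adI_add]
    rcases m with _ | m
    · rcases n with _ | n
      · omega
      · have h1 : ad f P = 0 := hP
        rw [h1, zero_mul, adI_zero_right, zero_add,
          ih (m := 0) (n := n) (P := P) (Q := ad f Q) hP hQ (by omega)]
        simp [adI]
    · rcases n with _ | n
      · have h1 : ad f Q = 0 := hQ
        rw [h1, mul_zero, adI_zero_right, add_zero,
          ih (m := m) (n := 0) (P := ad f P) (Q := Q) hP hQ (by omega)]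
        have h2 : k = m := by omega
        subst h2
        simp [adI]
      · rw [ih (m := m) (n := n + 1) (P := ad f P) (Q := Q) hP hQ (by omega),
          ih (m := m + 1) (n := n) (P := P) (Q := ad f Q) hP hQ (by omega)]
        have h2 : k = m + n + 1 := by omega
        subst h2
        simp only [adI]
        rw [← add_smul]
        congr 1
        rw [Nat.choose_succ_succ' (m + n + 1) m]
        push_cast
        ring

/-- `(n!)⁻¹ ad(f)^n (P) (1)`: the value at `df` of the symbol of order `n` of `P` -/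
noncomputable def symb (f : A) (n : ℕ) (P : Module.End ℂ A) : A :=
  ((n.factorial : ℂ)⁻¹) • adI f n P 1

lemma DOp.adI_eq_mul {n : ℕ} {P : Module.End ℂ A} (hP : DOp (n + 1) P) (f : A) :
    H50.DO.adI f n P = LinearMap.mulLeft ℂ (H50.DO.adI f n P 1) :=
  (DOp.adI (m := 1) (by rwa [add_comm]) f).eq_mulLeft

lemma symb_mul (f : A) {m n : ℕ} {P Q : Module.End ℂ A} (hP : DOp (m + 1) P)
    (hQ : DOp (n + 1) Q) : symb f (m + n) (P * Q) = symb f m P * symb f n Q := by
  unfold symb
  rw [adI_mul_top f (hP.adI_eq_zero f le_rfl) (hQ.adI_eq_zero f le_rfl), hP.adI_eq_mul f]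
  rw [LinearMap.smul_apply, Module.End.mul_apply, LinearMap.mulLeft_apply,
    smul_mul_smul_comm, smul_smul]
  simp only [LinearMap.mulLeft_apply, mul_one]
  congr 1
  have h : (m + n).choose m * m.factorial * n.factorial = (m + n).factorial := by
    have := Nat.choose_mul_factorial_mul_factorial (Nat.le_add_right m n)
    rwa [Nat.add_sub_cancel_left] at this
  have h1 : ((m.factorial : ℕ) : ℂ) ≠ 0 := by exact_mod_cast Nat.factorial_ne_zero m
  have h2 : ((n.factorial : ℕ) : ℂ) ≠ 0 := by exact_mod_cast Nat.factorial_ne_zero n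
  have h3 : (((m + n).factorial : ℕ) : ℂ) ≠ 0 := by exact_mod_cast Nat.factorial_ne_zero _
  field_simp
  rw [← h]
  push_cast
  ring

lemma symb_pow (f : A) {n : ℕ} {P : Module.End ℂ A} (hP : DOp (n + 1) P) (j : ℕ) :
    symb f (n * j) (P ^ j) = symb f n P ^ j := by
  induction j with
  | zero => simp [symb, adI]
  | succ j ih => rw [pow_succ, mul_add, mul_one, symb_mul f (hP.pow j) hP, ih, pow_succ]

end H50.DO
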