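import Pool.Agent.H50.DO.Expr

/-!
# Frobenius powers of the Jacobian ideal

A refinement of the characteristic-`p` lemma: only the derivatives in a subset of the variables
(given by `em : ν → σ`) are used, and the coefficients lie in Frobenius powers.
-/

open MvPolynomial

namespace H50.DO

variable {ν σ : Type} {R : Type} [CommRing R]

/-- the `K`-th Frobenius power of the ideal generated by the derivatives along `em` -/
noncomputable def frobPow (f : MvPolynomial σ R) (em : ν → σ) (p K : ℕ) :
    Ideal (MvPolynomial σ R) :=
  Ideal.span {x | ∃ w : List ν, w.length = K ∧ x = ((w.map fun i => pderiv (em i) f).prod) ^ p}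

lemma frobPow_zero (f : MvPolynomial σ R) (em : ν → σ) (p : ℕ) : frobPow f em p 0 = ⊤ := by
  rw [Ideal.eq_top_iff_one]
  apply Ideal.subset_span
  exact ⟨[], rfl, by simp⟩

lemma mul_mem_frobPow (f : MvPolynomial σ R) (em : ν → σ) (p K : ℕ) (i : ν)
    {x : MvPolynomial σ R} (hx : x ∈ frobPow f em p K) :
    pderiv (em i) f ^ p * x ∈ frobPow f em p (K + 1) := by
  unfold frobPow at hx ⊢
  induction hx using Submodule.span_induction with
  | mem y hy =>
    obtain ⟨w, hw, rfl⟩ := hy
    apply Ideal.subset_span
    refine ⟨i :: w, by simp [hw], ?_⟩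
    rw [List.map_cons, List.prod_cons, mul_pow]
  | zero => simp
  | add x y _ _ hx hy => rw [mul_add]; exact add_mem hx hy
  | smul a x _ hx => rw [smul_eq_mul, mul_left_comm]; exact Ideal.mul_mem_left _ a hx

section CharP

variable [Fintype ν] [IsDomain R] (p : ℕ) [hp : Fact p.Prime] [CharP R p]

include p in
lemma TWm_one_mem (f : MvPolynomial σ R) (em : ν → σ) (w : List ν) (l K : ℕ)
    (hK : p * K + Fintype.card ν * (p - 1) < l + p) :
    TW f (w.map em) (sgl 1) l ∈ frobPow f em p K := by
  classical
  induction hn : w.length using Nat.strong_induction_on generalizing w l K with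
  | _ n ih =>
    subst hn
    rcases K with _ | K
    · rw [frobPow_zero]; exact Submodule.mem_top
    by_cases hw : Fintype.card ν * (p - 1) < w.length
    · obtain ⟨i, w', hw'⟩ := exists_replicate_of_length w p hp.out.pos hw
      have hlen : w.length = p + w'.length := by
        have := hw'.length_eq
        simpa using this
      have h1 := ih w'.length (by have := hp.out.pos; omega) w' (l - p) K (by
        rw [mul_add, mul_one] at hK; omega) rfl
      rw [TW_perm f (hw'.map em), List.map_append, List.map_replicate, TW_append, TW_replicate]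
      rw [Module.End.mul_apply, T_pow_char p]
      split_ifs with hl
      · exact zero_mem _
      · exact mul_mem_frobPow f em p K i h1
    · have h2 : w.length < l := by
        rw [mul_add, mul_one] at hK
        have := hp.out.pos
        omega
      rw [TW_sgl_gt _ _ _ _ (by simpa using h2)]
      exact zero_mem _

end CharP

namespace WExp

/-- expressions with derivatives only along `em` -/
noncomputable def lift (em : ν → σ) : WExp ν R → WExp σ R
  | mul q => mul (rename em q)
  | d i => d (em i)
  | add a b => add (lift em a) (lift em b)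
  | comp a b => comp (lift em a) (lift em b)

/-- the submodule spanned by all `T_w (1)`, `w` a word along `em` -/
noncomputable def Lm (f : MvPolynomial σ R) (em : ν → σ) :
    Submodule (MvPolynomial σ R) (ℕ → MvPolynomial σ R) :=
  Submodule.span _ (Set.range fun w : List ν => TW f (w.map em) (sgl 1))

lemma T_mem_Lm (f : MvPolynomial σ R) (em : ν → σ) (i : ν) {h : ℕ → MvPolynomial σ R}
    (hh : h ∈ Lm f em) : T f (em i) h ∈ Lm f em := by
  unfold Lm at hh
  induction hh using Submodule.span_induction with
  | mem x hx =>
    obtain ⟨w, rfl⟩ := hx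
    apply Submodule.subset_span
    exact ⟨i :: w, by simp [TW]⟩
  | zero => rw [map_zero]; exact zero_mem _
  | add x y _ _ hx hy => rw [map_add]; exact add_mem hx hy
  | smul a x hx hx' =>
    rw [T_smul]
    exact add_mem (Submodule.smul_mem _ _ hx) (Submodule.smul_mem _ _ hx')

lemma evT_lift_mem_Lm (f : MvPolynomial σ R) (em : ν → σ) (e : WExp ν R)
    {h : ℕ → MvPolynomial σ R} (hh : h ∈ Lm f em) : evT f (lift em e) h ∈ Lm f em := by
  induction e generalizing h with
  | mul q => exact Submodule.smul_mem _ _ hh
  | d i => exact T_mem_Lm f em i hh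
  | add a b iha ihb => exact add_mem (iha hh) (ihb hh)
  | comp a b iha ihb => exact iha (ihb hh)

lemma evT_lift_pow_mem_Lm (f : MvPolynomial σ R) (em : ν → σ) (e : WExp ν R) (j : ℕ) :
    (evT f (lift em e) ^ j) (sgl 1) ∈ Lm f em := by
  induction j with
  | zero =>
    apply Submodule.subset_span
    exact ⟨[], by simp [TW]⟩
  | succ j ih => rw [pow_succ', Module.End.mul_apply]; exact evT_lift_mem_Lm f em e ih

lemma mem_frobPow_of_mem_Lm [Fintype ν] [IsDomain R] (p : ℕ) [Fact p.Prime] [CharP R p]
    (f : MvPolynomial σ R) (em : ν → σ) {h : ℕ → MvPolynomial σ R} (hh : h ∈ Lm f em) (l K : ℕ)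
    (hK : p * K + Fintype.card ν * (p - 1) < l + p) : h l ∈ frobPow f em p K := by
  unfold Lm at hh
  induction hh using Submodule.span_induction with
  | mem x hx =>
    obtain ⟨w, rfl⟩ := hx
    exact TWm_one_mem p f em w l K hK
  | zero => exact zero_mem _
  | add x y _ _ hx hy => exact add_mem hx hy
  | smul a x _ hx => exact Ideal.mul_mem_left _ a hx

/-- In characteristic `p` the `l`-th coefficient of `e^{-cf} Q^j e^{cf}` lies in a Frobenius
power of the Jacobian ideal. -/
lemma evT_lift_pow_mem [Fintype ν] [IsDomain R] (p : ℕ) [Fact p.Prime] [CharP R p]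
    (f : MvPolynomial σ R) (em : ν → σ) (e : WExp ν R) (j l K : ℕ)
    (hK : p * K + Fintype.card ν * (p - 1) < l + p) :
    (evT f (lift em e) ^ j) (sgl 1) l ∈ frobPow f em p K :=
  mem_frobPow_of_mem_Lm p f em (evT_lift_pow_mem_Lm f em e j) l K hK

end WExp

end H50.DO
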