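import Pool.Agent.H50.DO.Struct

/-!
# Iterated commutators along lists, polarization
-/

namespace H50.DO

variable {A : Type*} [CommRing A] [Algebra ℂ A]

/-- iterated commutator along a list -/
noncomputable def adL (l : List A) (P : Module.End ℂ A) : Module.End ℂ A := l.foldr ad P

@[simp] lemma adL_nil (P : Module.End ℂ A) : adL [] P = P := rfl

@[simp] lemma adL_cons (f : A) (l : List A) (P : Module.End ℂ A) :
    adL (f :: l) P = ad f (adL l P) := rfl

lemma adL_zero (l : List A) : adL l (0 : Module.End ℂ A) = 0 := by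
  induction l with
  | nil => rfl
  | cons f l ih => rw [adL_cons, ih, ad_zero]

lemma adL_append (l l' : List A) (P : Module.End ℂ A) : adL (l ++ l') P = adL l (adL l' P) := by
  simp [adL]

lemma ad_adL (f : A) (l : List A) (P : Module.End ℂ A) : ad f (adL l P) = adL l (ad f P) := by
  induction l with
  | nil => rfl
  | cons g l ih => rw [adL_cons, ad_comm, ih, adL_cons]

lemma adL_perm {l l' : List A} (h : l.Perm l') (P : Module.End ℂ A) : adL l P = adL l' P := by
  induction h with
  | nil => rfl
  | cons f _ ih => rw [adL_cons, ih, adL_cons]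
  | swap f g l => rw [adL_cons, adL_cons, ad_comm, adL_cons, adL_cons]
  | trans _ _ ih1 ih2 => rw [ih1, ih2]

lemma DOp_iff_adL {n : ℕ} {P : Module.End ℂ A} :
    DOp n P ↔ ∀ l : List A, l.length = n → adL l P = 0 := by
  induction n generalizing P with
  | zero =>
    constructor
    · intro h l hl
      rw [List.length_eq_zero_iff.1 hl]
      exact h
    · intro h
      exact h [] rfl
  | succ n ih =>
    constructor
    · intro h l hl
      obtain ⟨f, l, rfl⟩ := List.exists_cons_of_length_eq_add_one hl
      rw [adL_cons, ad_adL]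
      exact ih.1 (h f) l (by simpa using hl)
    · intro h f
      apply ih.2
      intro l hl
      rw [← ad_adL]
      exact h (f :: l) (by simp [hl])

lemma DOp.adL {m : ℕ} (l : List A) {P : Module.End ℂ A} (hP : DOp (m + l.length) P) :
    DOp m (adL l P) := by
  induction l generalizing P with
  | nil => exact hP
  | cons f l ih =>
    rw [adL_cons, ad_adL]
    exact ih (hP f)

/-- the commutator as a linear map in both variables -/
noncomputable def adE (f : A) : Module.End ℂ (Module.End ℂ A) where
  toFun P := ad f P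
  map_add' := ad_add f
  map_smul' c P := ad_smul c f P

@[simp] lemma adE_apply (f : A) (P : Module.End ℂ A) : adE f P = ad f P := rfl

lemma adE_commute (f g : A) : Commute (adE f) (adE g) := by
  apply LinearMap.ext
  intro P
  simp only [Module.End.mul_apply, adE_apply]
  exact ad_comm f g P

lemma adE_pow (f : A) (n : ℕ) (P : Module.End ℂ A) : (adE f ^ n) P = adI f n P := by
  induction n generalizing P with
  | zero => rfl
  | succ n ih => rw [pow_succ, Module.End.mul_apply, ih, adE_apply]; rfl

lemma adE_add_smul (f g : A) (c : ℂ) : adE (f + c • g) = adE f + c • adE g := by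
  apply LinearMap.ext
  intro P
  simp only [adE_apply, LinearMap.add_apply, LinearMap.smul_apply]
  rw [ad_add_left, ad_smul_left]

lemma eq_zero_of_sum_pow_smul {M : Type*} [AddCommGroup M] [Module ℂ M] (N : ℕ) (v : ℕ → M)
    (h : ∀ c : ℂ, ∑ k ∈ Finset.range N, c ^ k • v k = 0) {k : ℕ} (hk : k < N) : v k = 0 := by
  rw [← Module.forall_dual_apply_eq_zero_iff ℂ]
  intro φ
  let q : Polynomial ℂ := ∑ k ∈ Finset.range N, Polynomial.monomial k (φ (v k))
  have hq : q = 0 := by
    apply Polynomial.funext
    intro c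
    have h1 := congrArg φ (h c)
    rw [map_sum, map_zero] at h1
    simp only [q, Polynomial.eval_finsetSum, Polynomial.eval_monomial, Polynomial.eval_zero]
    rw [← h1]
    apply Finset.sum_congr rfl
    intro k _
    rw [map_smul, smul_eq_mul, mul_comm]
  have h2 : q.coeff k = φ (v k) := by
    simp only [q, Polynomial.finsetSum_coeff, Polynomial.coeff_monomial]
    rw [Finset.sum_ite_eq' (Finset.range N) k]
    simp [hk]
  rw [← h2, hq, Polynomial.coeff_zero]

/-- one step of polarization -/
lemma polar_step (H : Submodule ℂ A) {n : ℕ} {P : Module.End ℂ A}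
    (h : ∀ f ∈ H, adI f (n + 1) P = 0) {f g : A} (hf : f ∈ H) (hg : g ∈ H) :
    adI f n (ad g P) = 0 := by
  have h1 : ∀ c : ℂ, ∑ k ∈ Finset.range (n + 1 + 1), c ^ k •
      ((((n + 1).choose k : ℕ) : ℂ) • (adE g ^ k) ((adE f ^ (n + 1 - k)) P)) = 0 := by
    intro c
    have h2 := h (f + c • g) (H.add_mem hf (H.smul_mem c hg))
    rw [← adE_pow, adE_add_smul, add_comm,
      (((adE_commute g f).smul_left c).add_pow (n + 1))] at h2
    rw [← h2, LinearMap.sum_apply]
    apply Finset.sum_congr rfl
    intro k _
    simp only [Module.End.mul_apply, smul_pow, LinearMap.smul_apply, Module.End.natCast_apply,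
      map_nsmul]
    rw [← Nat.cast_smul_eq_nsmul ℂ, smul_comm]
  have h3 := eq_zero_of_sum_pow_smul _ _ h1 (k := 1) (by omega)
  rw [Nat.choose_one_right, pow_one, Nat.add_sub_cancel] at h3
  have h4 : ((n + 1 : ℕ) : ℂ) ≠ 0 := by exact_mod_cast Nat.succ_ne_zero n
  have h5 := (smul_eq_zero.1 h3).resolve_left h4
  rw [adE_pow, adE_apply] at h5
  rw [← ad_adI]
  exact h5

lemma polar (H : Submodule ℂ A) (n : ℕ) {P : Module.End ℂ A}
    (h : ∀ f ∈ H, adI f n P = 0) (l : List A) (hl : l.length = n) (hH : ∀ f ∈ l, f ∈ H) :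
    adL l P = 0 := by
  induction n generalizing P l with
  | zero =>
    rw [List.length_eq_zero_iff.1 hl]
    exact h 0 (zero_mem _)
  | succ n ih =>
    obtain ⟨g, l, rfl⟩ := List.exists_cons_of_length_eq_add_one hl
    rw [adL_cons, ad_adL]
    apply ih _ l (by simpa using hl) (fun f hf => hH f (by simp [hf]))
    intro f hf
    exact polar_step H h hf (hH g (by simp))

/-- the commutators with an operator of order `≤ 1` are given by a derivation -/
lemma ad_pow_of_DOp_two {E : Module.End ℂ A} (hE : DOp 2 E) (f : A) (m : ℕ) :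
    ad (f ^ (m + 1)) E = LinearMap.mulLeft ℂ ((((m + 1 : ℕ)) : A) * f ^ m) * ad f E := by
  have h1 : ∀ g, ad g E = LinearMap.mulLeft ℂ (ad g E 1) := fun g => (hE g).eq_mulLeft
  induction m with
  | zero =>
    simp only [zero_add, pow_one, Nat.cast_one, pow_zero, mul_one, LinearMap.mulLeft_one]
    rfl
  | succ m ih =>
    rw [pow_succ, ad_mul_left, ih, h1 f]
    ext a
    simp only [LinearMap.add_apply, Module.End.mul_apply, LinearMap.mulLeft_apply]
    push_cast
    ring

lemma ad_eq_zero_of_pow [IsDomain A] {E : Module.End ℂ A} (hE : DOp 2 E) {f : A} {m : ℕ}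
    (h : ad (f ^ (m + 1)) E = 0) : ad f E = 0 := by
  by_cases hf : f = 0
  · subst hf
    ext a
    simp [ad_apply]
  have h1 := (hE f).eq_mulLeft
  rw [ad_pow_of_DOp_two hE, h1] at h
  have h2 := LinearMap.congr_fun h 1
  simp only [Module.End.mul_apply, LinearMap.mulLeft_apply, mul_one, LinearMap.zero_apply] at h2
  have : CharZero A := charZero_of_injective_algebraMap (algebraMap ℂ A).injective
  have h3 : ((m + 1 : ℕ) : A) * f ^ m ≠ 0 :=
    mul_ne_zero (by exact_mod_cast Nat.succ_ne_zero m) (pow_ne_zero _ hf)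
  rw [h1, (mul_eq_zero.1 h2).resolve_left h3]
  simp

/-- If all commutators of length `n` with elements of `H` vanish and `P` has order `≤ n`, then all
commutators of length `n` with roots of elements of `H` vanish. -/
lemma adL_roots [IsDomain A] (H : Submodule ℂ A) {n : ℕ} {P : Module.End ℂ A}
    (hP : DOp (n + 1) P) (h : ∀ f ∈ H, adI f n P = 0) (l₁ l₂ : List A)
    (hl : l₁.length + l₂.length = n) (h₁ : ∀ f ∈ l₁, ∃ m, f ^ (m + 1) ∈ H) (h₂ : ∀ f ∈ l₂, f ∈ H) :
    adL (l₁ ++ l₂) P = 0 := by
  induction l₁ generalizing l₂ with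
  | nil => exact polar H n h l₂ (by simpa using hl) h₂
  | cons f l₁ ih =>
    obtain ⟨m, hm⟩ := h₁ f (by simp)
    rw [List.cons_append, adL_cons]
    have hE : DOp 2 (adL (l₁ ++ l₂) P) := by
      apply DOp.adL
      rw [List.length_append]
      simp only [List.length_cons] at hl
      rwa [show 2 + (l₁.length + l₂.length) = n + 1 by omega]
    apply ad_eq_zero_of_pow hE (m := m)
    rw [← adL_cons]
    have h3 : (f ^ (m + 1) :: (l₁ ++ l₂)).Perm (l₁ ++ (f ^ (m + 1) :: l₂)) :=
      List.perm_middle.symm
    rw [adL_perm h3]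
    apply ih
    · simp only [List.length_cons] at hl ⊢
      omega
    · intro g hg
      exact h₁ g (by simp [hg])
    · intro g hg
      rcases List.mem_cons.1 hg with rfl | hg
      · exact hm
      · exact h₂ g hg

end H50.DO
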