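import Pool.Agent.H50.DO.Diff
import Pool.Agent.H50.DO.Expr

/-!
# Differential operators on a polynomial ring are given by expressions
-/

open MvPolynomial

namespace H50.DO

section Deriv

variable {A : Type*} [CommRing A] [Algebra ℂ A]

lemma ad_adI (f g : A) (m : ℕ) (Q : Module.End ℂ A) :
    ad f (adI g m Q) = adI g m (ad f Q) := by
  induction m generalizing Q with
  | zero => simp only [adI]
  | succ m ih => simp only [adI]; rw [ih, ad_comm]

lemma ad_derivation (D : Derivation ℂ A A) (f : A) :
    ad f D.toLinearMap = LinearMap.mulLeft ℂ (D f) := by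
  ext a
  change D (f * a) - f * D a = D f * a
  rw [Derivation.leibniz, smul_eq_mul, smul_eq_mul]
  ring

lemma DOp_derivation (D : Derivation ℂ A A) : DOp 2 D.toLinearMap := by
  intro f
  rw [ad_derivation]
  exact DOp_mulLeft _

lemma ad_pow_derivation (D : Derivation ℂ A A) (f : A) (hf : D f = 1) (m : ℕ) :
    ad f (D.toLinearMap ^ (m + 1)) = ((m : ℂ) + 1) • D.toLinearMap ^ m := by
  induction m with
  | zero =>
    rw [zero_add, pow_one, ad_derivation, hf, LinearMap.mulLeft_one]
    simp
    rfl
  | succ m ih =>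
    rw [pow_succ, ad_mul, ih, ad_derivation, hf, LinearMap.mulLeft_one]
    change _ + _ * (1 : Module.End ℂ A) = _
    rw [mul_one, smul_mul_assoc, ← pow_succ]
    have h1 : ((m + 1 : ℕ) : ℂ) + 1 = ((m : ℂ) + 1) + 1 := by push_cast; ring
    rw [h1, add_smul ((m : ℂ) + 1) (1 : ℂ), one_smul]

end Deriv

section Poly

variable {ν : Type}

/-- operators given by an expression -/
def IsExpr (Q : Module.End ℂ (MvPolynomial ν ℂ)) : Prop := ∃ e : WExp ν ℂ, WExp.ev e = Q

lemma IsExpr.add {P Q : Module.End ℂ (MvPolynomial ν ℂ)} (hP : IsExpr P) (hQ : IsExpr Q) :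
    IsExpr (P + Q) := by
  obtain ⟨e, rfl⟩ := hP
  obtain ⟨e', rfl⟩ := hQ
  exact ⟨.add e e', rfl⟩

lemma IsExpr.mul {P Q : Module.End ℂ (MvPolynomial ν ℂ)} (hP : IsExpr P) (hQ : IsExpr Q) :
    IsExpr (P * Q) := by
  obtain ⟨e, rfl⟩ := hP
  obtain ⟨e', rfl⟩ := hQ
  exact ⟨.comp e e', rfl⟩

lemma isExpr_mulLeft (q : MvPolynomial ν ℂ) : IsExpr (LinearMap.mulLeft ℂ q) := ⟨.mul q, rfl⟩

lemma isExpr_pderiv (i : ν) :
    IsExpr (pderiv i : Derivation ℂ (MvPolynomial ν ℂ) (MvPolynomial ν ℂ)).toLinearMap :=
  ⟨.d i, rfl⟩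

lemma IsExpr.smul {P : Module.End ℂ (MvPolynomial ν ℂ)} (hP : IsExpr P) (c : ℂ) :
    IsExpr (c • P) := by
  have : c • P = LinearMap.mulLeft ℂ (C c) * P := by
    apply LinearMap.ext
    intro a
    rw [LinearMap.smul_apply, Module.End.mul_apply, LinearMap.mulLeft_apply,
      MvPolynomial.smul_eq_C_mul]
  rw [this]
  exact (isExpr_mulLeft _).mul hP

lemma isExpr_zero : IsExpr (0 : Module.End ℂ (MvPolynomial ν ℂ)) := by
  have : (0 : Module.End ℂ (MvPolynomial ν ℂ)) = LinearMap.mulLeft ℂ 0 := by simp
  rw [this]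
  exact isExpr_mulLeft _

lemma isExpr_one : IsExpr (1 : Module.End ℂ (MvPolynomial ν ℂ)) := by
  have := isExpr_mulLeft (1 : MvPolynomial ν ℂ)
  rwa [LinearMap.mulLeft_one] at this

lemma IsExpr.pow {P : Module.End ℂ (MvPolynomial ν ℂ)} (hP : IsExpr P) (n : ℕ) :
    IsExpr (P ^ n) := by
  induction n with
  | zero => rw [pow_zero]; exact isExpr_one
  | succ n ih => rw [pow_succ]; exact ih.mul hP

lemma IsExpr.sum {ι : Type*} (s : Finset ι) {P : ι → Module.End ℂ (MvPolynomial ν ℂ)}
    (hP : ∀ i ∈ s, IsExpr (P i)) : IsExpr (∑ i ∈ s, P i) := by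
  classical
  induction s using Finset.induction_on with
  | empty => simpa using isExpr_zero
  | insert i s hi ih =>
    rw [Finset.sum_insert hi]
    exact (hP i (by simp)).add (ih fun j hj => hP j (by simp [hj]))

lemma eq_mulLeft_of_comm {Q : Module.End ℂ (MvPolynomial ν ℂ)} (h : ∀ i, ad (X i) Q = 0) :
    Q = LinearMap.mulLeft ℂ (Q 1) := by
  have key : ∀ a : MvPolynomial ν ℂ, ad a Q = 0 := by
    intro a
    induction a using MvPolynomial.induction_on with
    | C c =>
      apply LinearMap.ext
      intro b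
      rw [ad_apply, LinearMap.zero_apply, ← MvPolynomial.smul_eq_C_mul,
        ← MvPolynomial.smul_eq_C_mul, map_smul, sub_self]
    | add a b ha hb => rw [ad_add_left, ha, hb, add_zero]
    | mul_X a i ha =>
      rw [ad_mul_left, ha, h i]
      simp
  exact DOp.eq_mulLeft (fun a => key a)

/-- partial sums of `∑ (-1)^m / m! ad(x_j)^m (Q) ∂_j^m` -/
noncomputable def Pr (j : ν) (Q : Module.End ℂ (MvPolynomial ν ℂ)) (k : ℕ) :
    Module.End ℂ (MvPolynomial ν ℂ) :=
  ∑ m ∈ Finset.range k, (((-1) ^ m : ℂ) * ((m.factorial : ℂ))⁻¹) •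
    (adI (X j) m Q *
      (pderiv j : Derivation ℂ (MvPolynomial ν ℂ) (MvPolynomial ν ℂ)).toLinearMap ^ m)

lemma ad_Pr (j : ν) (Q : Module.End ℂ (MvPolynomial ν ℂ)) (k : ℕ) :
    ad (X j) (Pr j Q (k + 1)) = (((-1) ^ k : ℂ) * ((k.factorial : ℂ))⁻¹) •
    (adI (X j) (k + 1) Q *
      (pderiv j : Derivation ℂ (MvPolynomial ν ℂ) (MvPolynomial ν ℂ)).toLinearMap ^ k) := by
  induction k with
  | zero => simp [Pr, adI]
  | succ k ih =>
    unfold Pr at ih ⊢
    rw [Finset.sum_range_succ, ad_add, ih, ad_smul, ad_mul, ad_pow_derivation _ _ (by simp),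
      ← adI_succ', smul_add, add_left_comm, mul_smul_comm, smul_smul, ← add_smul]
    have : (((-1) ^ k : ℂ) * ((k.factorial : ℂ))⁻¹) +
        ((-1) ^ (k + 1) : ℂ) * (((k + 1).factorial : ℂ))⁻¹ * ((k : ℂ) + 1) = 0 := by
      have h1 : ((k.factorial : ℕ) : ℂ) ≠ 0 := by exact_mod_cast Nat.factorial_ne_zero k
      have h2 : ((k : ℂ) + 1) ≠ 0 := by exact_mod_cast Nat.succ_ne_zero k
      rw [Nat.factorial_succ]
      push_cast
      field_simp
      ring
    rw [this, zero_smul, add_zero]

lemma ad_pow_pderiv_ne {i j : ν} (h : i ≠ j) (m : ℕ) :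
    ad (X i) ((pderiv j : Derivation ℂ (MvPolynomial ν ℂ) (MvPolynomial ν ℂ)).toLinearMap ^ m)
      = 0 := by
  induction m with
  | zero =>
    rw [pow_zero]
    have := ad_mulLeft (X i) (1 : MvPolynomial ν ℂ)
    rwa [LinearMap.mulLeft_one] at this
  | succ m ih =>
    rw [pow_succ, ad_mul, ih, ad_derivation, pderiv_X_of_ne h]
    simp

lemma isExpr_of_DOp_aux (I : Finset ν) : ∀ (n : ℕ) (Q : Module.End ℂ (MvPolynomial ν ℂ)),
    DOp n Q → (∀ i, i ∉ I → ad (X i) Q = 0) → IsExpr Q := by
  classical
  induction I using Finset.induction_on with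
  | empty =>
    intro n Q _ h
    rw [eq_mulLeft_of_comm (fun i => h i (by simp))]
    exact isExpr_mulLeft _
  | insert j I hj ih =>
    intro n
    induction n using Nat.strong_induction_on with
    | _ n ihn =>
      intro Q hQ h
      rcases n with _ | n
      · rw [DOp_zero_iff] at hQ
        subst hQ
        exact isExpr_zero
      · set D := (pderiv j : Derivation ℂ (MvPolynomial ν ℂ) (MvPolynomial ν ℂ)).toLinearMap
          with hD
        have hD2 : DOp 2 D := DOp_derivation _
        -- the projected operator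
        have h1 : IsExpr (Pr j Q (n + 1)) := by
          apply ih (n + 1 + (n + 1) + 1)
          · unfold Pr
            apply DOp.sum
            intro m hm
            rw [Finset.mem_range] at hm
            apply DOp.smul
            have h2 : DOp (n + 1 + 1) (adI (X j) m Q) := by
              have : DOp (n + 1 - m) (adI (X j) m Q) := by
                apply DOp.adI
                rwa [Nat.sub_add_cancel (by omega)]
              exact this.mono (by omega)
            have h3 : DOp (m + 1) (D ^ m) := by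
              have := hD2.pow (n := 1) m
              rwa [one_mul] at this
            exact (h2.comp (m := n + 1) h3).mono (by omega)
          · intro i hi
            by_cases hij : i = j
            · subst hij
              rw [ad_Pr, hQ.adI_eq_zero _ le_rfl, zero_mul, smul_zero]
            · have h4 : ad (X i) Q = 0 := h i (by simp [hij, hi])
              unfold Pr
              rw [ad_sum]
              apply Finset.sum_eq_zero
              intro m _
              rw [ad_smul, ad_mul, ad_adI, h4, adI_zero_right, zero_mul, zero_add,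
                ad_pow_pderiv_ne hij, mul_zero, smul_zero]
        have h5 : Pr j Q (n + 1) = ∑ m ∈ Finset.range n,
            (((-1) ^ (m + 1) : ℂ) * (((m + 1).factorial : ℂ))⁻¹) •
            (adI (X j) (m + 1) Q * D ^ (m + 1)) + Q := by
          unfold Pr
          rw [Finset.sum_range_succ']
          simp [adI, hD]
        have h6 : IsExpr (∑ m ∈ Finset.range n,
            (((-1) ^ (m + 1) : ℂ) * (((m + 1).factorial : ℂ))⁻¹) •
            (adI (X j) (m + 1) Q * D ^ (m + 1))) := by
          apply IsExpr.sum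
          intro m hm
          rw [Finset.mem_range] at hm
          apply IsExpr.smul
          apply IsExpr.mul
          · apply ihn (n - m) (by omega)
            · apply DOp.adI
              rwa [show n - m + (m + 1) = n + 1 by omega]
            · intro i hi
              rw [ad_adI, h i hi, adI_zero_right]
          · exact (isExpr_pderiv j).pow _
        have h7 : Q = Pr j Q (n + 1) + (-1 : ℂ) • (∑ m ∈ Finset.range n,
            (((-1) ^ (m + 1) : ℂ) * (((m + 1).factorial : ℂ))⁻¹) •
            (adI (X j) (m + 1) Q * D ^ (m + 1))) := by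
          rw [h5]
          have h8 : ∀ a b : Module.End ℂ (MvPolynomial ν ℂ), b = a + b + (-1 : ℂ) • a := by
            intro a b
            apply LinearMap.ext
            intro x
            simp only [LinearMap.add_apply, LinearMap.smul_apply, neg_smul, one_smul]
            abel
          exact h8 _ _
        rw [h7]
        exact h1.add (h6.smul _)

/-- Every Grothendieck differential operator on `ℂ[x_1, …, x_ν]` is given by an expression. -/
theorem isExpr_of_DOp [Fintype ν] {n : ℕ} {Q : Module.End ℂ (MvPolynomial ν ℂ)} (hQ : DOp n Q) :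
    IsExpr Q :=
  isExpr_of_DOp_aux Finset.univ n Q hQ (fun i hi => absurd (Finset.mem_univ i) hi)

end Poly

end H50.DO
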