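import Pool.Agent.H50.DO.Frob
import Pool.Agent.H50.DO.Cartier
import Pool.Agent.H50.DO.Cert
import Pool.Agent.H50.DO.Symbol

/-!
# The universal symbol

For `f_j ∈ A` put `f_c = ∑ c_j f_j` with indeterminates `c_j`.  The symbol of `P` at `f_c` is a
polynomial `F(v, c)`, and `F^k` lies in the ideal generated by the products of `n k - ν` of the
derivatives `∂ f_c / ∂ v_i`.
-/

open MvPolynomial

namespace H50.DO

variable {ν μ : Type} [Fintype μ]

section Any

variable {R : Type} [CommRing R]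

/-- the universal element `∑ c_j f_j` -/
noncomputable def fu (f : μ → MvPolynomial ν R) : MvPolynomial (ν ⊕ μ) R :=
  ∑ j, X (Sum.inr j) * rename Sum.inl (f j)

/-- specialization of the indeterminates `c` -/
noncomputable def sp (c : μ → R) : MvPolynomial (ν ⊕ μ) R →ₐ[R] MvPolynomial ν R :=
  aeval (Sum.elim X (fun j => C (c j)))

omit [Fintype μ] in
@[simp] lemma sp_rename (c : μ → R) (q : MvPolynomial ν R) : sp c (rename Sum.inl q) = q := by
  unfold sp
  rw [aeval_rename]
  have : (Sum.elim X (fun j => C (c j)) : ν ⊕ μ → MvPolynomial ν R) ∘ Sum.inl = X := by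
    funext i; rfl
  rw [this, aeval_X_left]
  rfl

lemma sp_fu (c : μ → R) (f : μ → MvPolynomial ν R) : sp c (fu f) = ∑ j, C (c j) * f j := by
  unfold fu
  rw [map_sum]
  apply Finset.sum_congr rfl
  intro j _
  rw [map_mul, sp_rename]
  simp [sp]

omit [Fintype μ] in
lemma sp_pderiv (c : μ → R) (i : ν) (h : MvPolynomial (ν ⊕ μ) R) :
    sp c (pderiv (Sum.inl i) h) = pderiv i (sp c h) := by
  classical
  induction h using MvPolynomial.induction_on with
  | C a => simp [sp]
  | add p q hp hq => rw [map_add, map_add, hp, hq, map_add, map_add]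
  | mul_X p s hp =>
    rw [Derivation.leibniz, map_add, smul_eq_mul, smul_eq_mul, map_mul, map_mul, hp, map_mul,
      Derivation.leibniz, smul_eq_mul, smul_eq_mul]
    congr 1
    rcases s with s | s
    · simp [sp, pderiv_X, Pi.single_apply]
    · simp [sp, pderiv_X]

/-- specialization of sequences -/
noncomputable def spSeq (c : μ → R) (h : ℕ → MvPolynomial (ν ⊕ μ) R) : ℕ → MvPolynomial ν R :=
  fun l => sp c (h l)

omit [Fintype μ] in
lemma spSeq_T (c : μ → R) (F : MvPolynomial (ν ⊕ μ) R) (i : ν)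
    (h : ℕ → MvPolynomial (ν ⊕ μ) R) :
    spSeq c (T F (Sum.inl i) h) = T (sp c F) i (spSeq c h) := by
  funext l
  cases l with
  | zero => simp [spSeq, sp_pderiv]
  | succ l => simp [spSeq, sp_pderiv]

omit [Fintype μ] in
lemma spSeq_evT (c : μ → R) (F : MvPolynomial (ν ⊕ μ) R) (e : WExp ν R)
    (h : ℕ → MvPolynomial (ν ⊕ μ) R) :
    spSeq c (WExp.evT F (WExp.lift Sum.inl e) h) = WExp.evT (sp c F) e (spSeq c h) := by
  induction e generalizing h with
  | mul q => funext l; simp [spSeq, WExp.evT, WExp.lift, WExp.mulSeq]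
  | d i => exact spSeq_T c F i h
  | add a b iha ihb =>
    simp only [WExp.evT, WExp.lift, LinearMap.add_apply, ← iha, ← ihb]
    funext l
    simp [spSeq]
  | comp a b iha ihb => simp only [WExp.evT, WExp.lift, Module.End.mul_apply, iha, ihb]

omit [Fintype μ] in
lemma spSeq_evT_pow (c : μ → R) (F : MvPolynomial (ν ⊕ μ) R) (e : WExp ν R)
    (h : ℕ → MvPolynomial (ν ⊕ μ) R) (j : ℕ) :
    spSeq c ((WExp.evT F (WExp.lift Sum.inl e) ^ j) h) =
      (WExp.evT (sp c F) e ^ j) (spSeq c h) := by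
  induction j with
  | zero => simp
  | succ j ih => rw [pow_succ', Module.End.mul_apply, spSeq_evT, ih, pow_succ',
      Module.End.mul_apply]

omit [Fintype μ] in
lemma spSeq_sgl (c : μ → R) (a : MvPolynomial (ν ⊕ μ) R) :
    spSeq c (sgl a) = sgl (sp c a) := by
  funext l
  simp only [spSeq, sgl]
  split_ifs <;> simp

/-- the universal coefficients of `e^{-λ f_c} Q^j e^{λ f_c}` -/
noncomputable def uS (f : μ → MvPolynomial ν R) (E : WExp ν R) (j l : ℕ) :
    MvPolynomial (ν ⊕ μ) R :=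
  (WExp.evT (fu f) (WExp.lift Sum.inl E) ^ j) (sgl 1) l

lemma sp_uS (c : μ → R) (f : μ → MvPolynomial ν R) (E : WExp ν R) (j l : ℕ) :
    sp c (uS f E j l) = (WExp.evT (∑ i, C (c i) * f i) E ^ j) (sgl 1) l := by
  have h := congrFun (spSeq_evT_pow c (fu f) E (sgl 1) j) l
  rw [spSeq_sgl, map_one, sp_fu] at h
  exact h

variable {R' : Type} [CommRing R'] (φ : R →+* R')

lemma map_fu (f : μ → MvPolynomial ν R) : map φ (fu f) = fu (fun j => map φ (f j)) := by
  unfold fu
  rw [map_sum]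
  apply Finset.sum_congr rfl
  intro j _
  rw [map_mul, map_X, MvPolynomial.map_rename]

omit [Fintype μ] in
lemma bc_lift (E : WExp ν R) :
    WExp.bc φ (WExp.lift (Sum.inl : ν → ν ⊕ μ) E) = WExp.lift Sum.inl (WExp.bc φ E) := by
  induction E with
  | mul q => simp [WExp.bc, WExp.lift, MvPolynomial.map_rename]
  | d i => rfl
  | add a b iha ihb => simp [WExp.bc, WExp.lift, iha, ihb]
  | comp a b iha ihb => simp [WExp.bc, WExp.lift, iha, ihb]

lemma map_uS (f : μ → MvPolynomial ν R) (E : WExp ν R) (j l : ℕ) :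
    map φ (uS f E j l) = uS (fun j => map φ (f j)) (WExp.bc φ E) j l := by
  have h := congrFun (WExp.seqMap_evT_pow φ (fu f) (WExp.lift Sum.inl E) (sgl 1) j) l
  rw [WExp.seqMap_sgl, map_one, map_fu, bc_lift] at h
  exact h

/-- the set of products of `K` derivatives of `F` along `em` -/
def wordSet {σ : Type} (F : MvPolynomial σ R) (em : ν → σ) (K : ℕ) : Set (MvPolynomial σ R) :=
  {x | ∃ w : List ν, w.length = K ∧ x = (w.map fun i => pderiv (em i) F).prod}

omit [Fintype μ] in
lemma map_wordSet {σ : Type} (F : MvPolynomial σ R) (em : ν → σ) (K : ℕ) :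
    map φ '' (wordSet F em K) = wordSet (map φ F) em K := by
  have key : ∀ w : List ν, map φ (w.map fun i => pderiv (em i) F).prod =
      (w.map fun i => pderiv (em i) (map φ F)).prod := by
    intro w
    rw [map_list_prod, List.map_map]
    congr 1
    apply List.map_congr_left
    intro i _
    simp [MvPolynomial.pderiv_map]
  ext x
  constructor
  · rintro ⟨_, ⟨w, hw, rfl⟩, rfl⟩
    exact ⟨w, hw, key w⟩
  · rintro ⟨w, hw, rfl⟩
    exact ⟨_, ⟨w, hw, rfl⟩, key w⟩

end Any

omit [Fintype μ] in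
lemma eq_of_sp {h h' : MvPolynomial (ν ⊕ μ) ℂ} (H : ∀ c : μ → ℂ, sp c h = sp c h') : h = h' := by
  apply MvPolynomial.funext
  intro x
  have h1 := congrArg (eval fun i => x (Sum.inl i)) (H fun j => x (Sum.inr j))
  have h2 : ∀ h : MvPolynomial (ν ⊕ μ) ℂ,
      eval (fun i => x (Sum.inl i)) (sp (fun j => x (Sum.inr j)) h) = eval x h := by
    intro h
    induction h using MvPolynomial.induction_on with
    | C a => simp [sp]
    | add p q hp hq => simp [hp, hq]
    | mul_X p s hp =>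
      rw [map_mul, map_mul, hp, map_mul]
      rcases s with s | s <;> simp [sp]
  rw [h2, h2] at h1
  exact h1

section Main

variable {A : Subalgebra ℂ (MvPolynomial ν ℂ)} {Q : Module.End ℂ (MvPolynomial ν ℂ)}
  {P : Module.End ℂ A} {n : ℕ}

lemma uS_pow (hPQ : ∀ a : A, Q a = ((P a : A) : MvPolynomial ν ℂ)) (hP : DOp (n + 1) P)
    (f : μ → A) (E : WExp ν ℂ) (hE : WExp.ev E = Q) (j : ℕ) :
    uS (fun i => (f i : MvPolynomial ν ℂ)) E j (n * j) =
      uS (fun i => (f i : MvPolynomial ν ℂ)) E 1 n ^ j := by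
  apply eq_of_sp
  intro c
  have hmem : (∑ i, C (c i) * (f i : MvPolynomial ν ℂ)) ∈ A :=
    Subalgebra.sum_mem _ fun i _ => by
      rw [← MvPolynomial.smul_eq_C_mul]
      exact Subalgebra.smul_mem _ (f i).2 _
  have h1 := symb_restrict (fun a => pow_restrict hPQ j a) ⟨_, hmem⟩ (n * j)
  have h2 := symb_restrict hPQ ⟨_, hmem⟩ n
  rw [sp_uS, map_pow, sp_uS, pow_one, evT_pow_apply]
  have h3 := evT_pow_apply (∑ i, C (c i) * (f i : MvPolynomial ν ℂ)) E 1 n
  rw [pow_one] at h3
  rw [h3, pow_one, hE]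
  rw [h1, h2, symb_pow _ hP]
  rfl

set_option maxHeartbeats 1000000 in
/-- powers of the universal symbol lie in powers of the Jacobian ideal -/
theorem univ_pow_mem [Fintype ν] (hPQ : ∀ a : A, Q a = ((P a : A) : MvPolynomial ν ℂ))
    (hP : DOp (n + 1) P) (f : μ → A) (E : WExp ν ℂ) (hE : WExp.ev E = Q) (j : ℕ) :
    uS (fun i => (f i : MvPolynomial ν ℂ)) E 1 n ^ j ∈
      Ideal.span (wordSet (fu fun i => (f i : MvPolynomial ν ℂ)) Sum.inl
        (n * j - Fintype.card ν)) := by
  classical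
  by_contra hcon
  by_cases hK : n * j ≤ Fintype.card ν
  · apply hcon
    rw [Nat.sub_eq_zero_of_le hK]
    have h1 : (1 : MvPolynomial (ν ⊕ μ) ℂ) ∈ Ideal.span (wordSet
        (fu fun i => (f i : MvPolynomial ν ℂ)) Sum.inl 0) :=
      Ideal.subset_span ⟨[], rfl, by simp⟩
    rw [(Ideal.eq_top_iff_one _).2 h1]
    exact Submodule.mem_top
  push Not at hK
  obtain ⟨R, hR, H⟩ := exists_reduction_notMem _ _ hcon
    (WExp.cf E ∪ Finset.univ.biUnion fun i => ((f i : MvPolynomial ν ℂ)).coeffs)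
  let ι : R →+* ℂ := algebraMap R ℂ
  have hι : Function.Injective ι := Subtype.val_injective
  obtain ⟨ER, hER⟩ := WExp.exists_bc_eq ι E (fun x hx => ⟨⟨x, hR x (by
    simp only [Finset.mem_union]; left; exact hx)⟩, rfl⟩)
  have hf : ∀ i, ∃ q : MvPolynomial ν R, map ι q = (f i : MvPolynomial ν ℂ) := by
    intro i
    apply WExp.exists_map_eq ι
    intro x hx
    exact ⟨⟨x, hR x (by
      simp only [Finset.mem_union, Finset.mem_biUnion, Finset.mem_univ, true_and]
      right; exact ⟨i, hx⟩)⟩, rfl⟩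
  choose fR hfR using hf
  have hfR' : (fun i => map ι (fR i)) = fun i => (f i : MvPolynomial ν ℂ) := funext hfR
  have hmapinj : Function.Injective (map ι : MvPolynomial (ν ⊕ μ) R → MvPolynomial (ν ⊕ μ) ℂ) :=
    MvPolynomial.map_injective ι hι
  have hmapS : ∀ j l, map ι (uS fR ER j l) = uS (fun i => (f i : MvPolynomial ν ℂ)) E j l := by
    intro j l
    rw [map_uS, hfR', hER]
  have hpowR : ∀ j, uS fR ER j (n * j) = (uS fR ER 1 n) ^ j := by
    intro j
    apply hmapinj
    rw [map_pow, hmapS, hmapS]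
    exact uS_pow hPQ hP f E hE j
  obtain ⟨p, hp, k, hk, hkp, hfact, hperf, φ, hφ⟩ := H
    (wordSet (fu fR) Sum.inl (n * j - Fintype.card ν)) (uS fR ER 1 n ^ j)
    (by
      intro x hx
      have h1 : map ι x ∈ map ι '' (wordSet (fu fR) Sum.inl (n * j - Fintype.card ν)) :=
        ⟨x, hx, rfl⟩
      rw [map_wordSet, map_fu, hfR'] at h1
      exact h1)
    (by
      change map ι _ = _
      rw [map_pow, hmapS])
  apply hφ
  rw [map_wordSet, map_fu]
  apply frobenius_descent p
  have h3 := WExp.evT_lift_pow_mem p (fu fun i => map φ (fR i)) Sum.inl (WExp.bc φ ER)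
    (j * p) (n * (j * p)) (n * j - Fintype.card ν) (by
      obtain ⟨t, ht⟩ : ∃ t, n * j = Fintype.card ν + t := ⟨_, (Nat.add_sub_of_le hK.le).symm⟩
      rw [ht, Nat.add_sub_cancel_left, ← mul_assoc, ht]
      have hp1 := hp.pos
      obtain ⟨q, rfl⟩ : ∃ q, p = q + 1 := ⟨p - 1, by omega⟩
      simp only [Nat.add_sub_cancel]
      nlinarith [Nat.zero_le (Fintype.card ν)])
  have h4 : (WExp.evT (fu fun i => map φ (fR i)) (WExp.lift Sum.inl (WExp.bc φ ER)) ^ (j * p))
      (sgl 1) (n * (j * p)) = (map φ (uS fR ER 1 n ^ j)) ^ p := by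
    have h5 := map_uS φ fR ER (j * p) (n * (j * p))
    rw [hpowR, pow_mul, map_pow] at h5
    exact h5.symm
  rw [h4] at h3
  have h6 : frobPow (fu fun i => map φ (fR i)) (Sum.inl : ν → ν ⊕ μ) p (n * j - Fintype.card ν) =
      Ideal.span {x | ∃ y ∈ wordSet (fu fun i => map φ (fR i)) (Sum.inl : ν → ν ⊕ μ)
        (n * j - Fintype.card ν), x = y ^ p} := by
    unfold frobPow wordSet
    congr 1
    ext x
    constructor
    · rintro ⟨w, hw, rfl⟩
      exact ⟨_, ⟨w, hw, rfl⟩, rfl⟩
    · rintro ⟨_, ⟨w, hw, rfl⟩, rfl⟩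
      exact ⟨w, hw, rfl⟩
  rw [h6] at h3
  exact h3

end Main

end H50.DO
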